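import Pool.Agent.H94.TG.Num

/-!
Row TM_Nu (project MP_28250c_TM): numerics with degrees multiplied by 4.
-/

set_option autoImplicit false
open Finset

namespace PPh

open ACpFrege

theorem tm_num {p : ℕ} (hp : p.Prime) {H : ℕ → CNF → ℕ → ℕ → ℕ → ℕ → Prop} (hG : OutGen p H) (S : List (Rule p))
    (hS : ∀ R ∈ S, R.Sound) (l₁ : ℕ) : ∃ n₀ : ℕ, ∀ n ≥ n₀, ∀ d : ℕ, Real.log n ^ (d + 1) ≤ (n : ℝ) ^ ctg p →
      ∃ l : ℕ, l₁ ≤ l ∧ (2 * p + 4) ^ (5 * l) + p ^ l + 2 ≤ n ∧ ∀ (nv : ℕ) (F : CNF), (∀ L, 4 * L ≤ 2 ^ (l / 2) →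
        H nv F L ((2 * p + 4) ^ (15 * l)) (2 ^ (2 ^ (l / 2) / 2) / 4) ((2 * ((2 * p + 4) ^ (5 * l)) ^ 2) ^ (4 * L))) →
        ∀ π : List (Fm p), Refutes S d F π → (2 : ℝ) ^ ((n : ℝ) ^ (ctg p / (d + 1))) ≤ psize π := by
  have hG' : OutGen p (fun nv F L A R del => ∃ del' ≤ del, H nv F (L / 4) A (R / 4) del') := by
    intro S hS
    obtain ⟨C, hC⟩ := hG S hS
    refine ⟨4 * C, fun d n F L A R del N t hH ht h1 h2 h3 h4 π hπ => ?_⟩
    obtain ⟨del', hd, hH⟩ := hH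
    refine hC d n F (L / 4) A (R / 4) del' N t hH ht ?_ ?_ ?_ ?_ π hπ
    · rw [Nat.le_div_iff_mul_le (by norm_num)]
      calc C * (p * t) ^ (d + 2) * 4 = 4 * C * (p * t) ^ (d + 2) := by ring
        _ ≤ L := h1
    · refine lt_of_le_of_lt ?_ h2
      exact Nat.mul_le_mul_right _ (Nat.mul_le_mul_right _ (Nat.mul_le_mul_right _ (by omega)))
    · rw [Nat.le_div_iff_mul_le (by norm_num)]
      calc C * N ^ 2 * (L / 4) * 4 ≤ 4 * C * N ^ 2 * L := by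
            have : L / 4 ≤ L := Nat.div_le_self _ _
            calc C * N ^ 2 * (L / 4) * 4 = 4 * C * N ^ 2 * (L / 4) := by ring
              _ ≤ _ := Nat.mul_le_mul_left _ this
        _ ≤ R := h3
    · rw [Nat.le_div_iff_mul_le (by norm_num)]
      calc 16 * (L / 4) * del' * 4 = 16 * (4 * (L / 4)) * del' := by ring
        _ ≤ 16 * L * del := Nat.mul_le_mul (Nat.mul_le_mul_left _ (Nat.mul_div_le _ _)) hd
        _ ≤ R := h4
  obtain ⟨n₀, h⟩ := tg_num hp hG' S hS l₁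
  refine ⟨n₀, fun n hn d hd => ?_⟩
  obtain ⟨l, hl, hln, hF⟩ := h n hn d hd
  refine ⟨l, hl, hln, fun nv F hH π hπ => hF nv F (fun L hL => ?_) π hπ⟩
  refine ⟨_, ?_, hH (L / 4) (by omega)⟩
  refine Nat.pow_le_pow_right ?_ (Nat.mul_div_le _ _)
  positivity

end PPh
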