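import Pool.Agent.H94.TM.Asm
import Pool.Agent.H94.TM.Num
import Pool.Agent.H75.PP.GOut
import Pool.Agent.H85.GT.Div

/-!
helper94 (project MP_28250c_TM): the main theorem, from `OutM`.
-/

set_option autoImplicit false
open Finset

namespace PPh

open ACpFrege

/-- The final statement: Tseitin formulas of bounded degree graphs with a large grid minor. -/
def StatementTM : Prop :=
  ∀ p : ℕ, p.Prime → ∀ S : List (Rule p), (∀ R ∈ S, R.Sound) → ∀ Δ : ℕ, ∃ n₀ : ℕ, ∀ n ≥ n₀, ∀ d : ℕ,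
    Real.log n ^ (d + 1) ≤ (n : ℝ) ^ (Real.log 2 / (400 * Real.log (2 * p + 4))) →
    ∀ (v : ℕ) (G : SimpleGraph (Fin v)) [DecidableRel G.Adj], G.Connected → GridMinor n G → (∀ w, G.degree w ≤ Δ) →
      (∀ q : ℕ, 2 ≤ q → ∀ σ : Fin v → ZMod q, ((p ^ q.factorization p : ℕ) : ZMod q) ∣ ∑ w, σ w → ∑ w, σ w ≠ 0 →
        ∀ π : List (Fm p), Refutes S d (tsg G q σ) π →
          (2 : ℝ) ^ ((n : ℝ) ^ (Real.log 2 / (400 * Real.log (2 * p + 4)) / (d + 1))) ≤ psize π) ∧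
      (p ≠ 2 → ∀ σ : Fin v → ZMod 2, ∑ w, σ w ≠ 0 →
        ∀ π : List (Fm p), Refutes S d (tsgb G σ) π →
          (2 : ℝ) ^ ((n : ℝ) ^ (Real.log 2 / (400 * Real.log (2 * p + 4)) / (d + 1))) ≤ psize π)

theorem HasGm.mono {p n : ℕ} [Fact p.Prime] {F : CNF} {L A R R' del : ℕ} (hR : R' ≤ R) (h : HasGm p n F L A R del) :
    HasGm p n F L A R' del := by
  obtain ⟨E, i1, i2, i3, g, h1, h2, h3, h4, h5⟩ := h
  exact ⟨E, i1, i2, i3, g, h1, h2, fun j hj => (Nat.mul_le_mul_right _ hR).trans (h3 j hj), h4, h5⟩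

theorem HasGmW.mono {w w' p n : ℕ} [Fact p.Prime] {F : CNF} {L A R del : ℕ} (hw : w ≤ w') (h : HasGmW w p n F L A R del) :
    HasGmW w' p n F L A R del := by
  obtain ⟨E, i1, i2, i3, g, h1, h2, h3, h4, h5⟩ := h
  refine ⟨E, i1, i2, i3, g, h1, h2, h3, h4, fun C hC => ?_⟩
  rcases h5 C hC with ⟨l, hl, h6⟩ | h6
  · exact Or.inl ⟨l, hl.trans hw, h6⟩
  · exact Or.inr h6

theorem tm_of (hM : ∀ (p : ℕ) [Fact p.Prime], OutM p) : StatementTM := by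
  intro p hp S hS Δ
  have : Fact p.Prime := ⟨hp⟩
  obtain ⟨l₁, hl₁⟩ := hM p
  obtain ⟨n₀, hn₀⟩ := tm_num hp (H := fun n F L A R del => HasGmW (max Δ 2) p n F L A R del) (Sd.outGW p (max Δ 2)) S hS l₁
  refine ⟨n₀, fun n hn d hd v G _ hG hmin hΔ => ?_⟩
  obtain ⟨l, hl, hln, hF⟩ := hn₀ n hn d hd
  have hp2 := hp.two_le
  have hB : 1 ≤ (2 * p + 4) ^ (5 * l) := Nat.one_le_pow _ _ (by omega)
  have hgm : ∀ L, 4 * L ≤ 2 ^ (l / 2) → HasGm p (((2 * p + 4) ^ (5 * l) + p ^ l) * (2 * p + 4) ^ (5 * l))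
      (ofphp ((2 * p + 4) ^ (5 * l) + p ^ l) ((2 * p + 4) ^ (5 * l))) (4 * L) ((2 * p + 4) ^ (15 * l)) (4 * (2 ^ (2 ^ (l / 2) / 2) / 4))
        ((2 * ((2 * p + 4) ^ (5 * l)) ^ 2) ^ (4 * L)) := fun L hL =>
    HasGm.mono (Nat.mul_div_le _ _) (hl₁ l hl ((2 * p + 4) ^ (5 * l)) (4 * L) le_rfl hL)
  have hun : ∀ (q : ℕ) (t : ZMod q), ((p ^ l : ℕ) : ZMod q) ∣ t →
      ((((2 * p + 4) ^ (5 * l) : ℕ) : ZMod q) - (((2 * p + 4) ^ (5 * l) + p ^ l : ℕ) : ZMod q)) ∣ t := by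
    intro q t ht
    have h2 : (((2 * p + 4) ^ (5 * l) : ℕ) : ZMod q) - (((2 * p + 4) ^ (5 * l) + p ^ l : ℕ) : ZMod q) = -((p ^ l : ℕ) : ZMod q) := by
      push_cast
      ring
    rw [h2, neg_dvd]
    exact ht
  refine ⟨fun q hq σ hdvd hσ π hπ => ?_, fun h2 σ hσ π hπ => ?_⟩
  · exact hF _ _ (fun L hL => tsg_gm G hG hmin (fun w => (hΔ w).trans (le_max_left _ _)) (le_max_right _ _) hq (by omega) hB
      (by omega) (by omega) (hun q _ (TU.pw_dvd hp (by omega) l hdvd)) (hgm L hL)) π hπ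
  · have hc : Nat.Coprime p 2 := (Nat.coprime_primes hp Nat.prime_two).2 h2
    have h1 : IsUnit ((p ^ l : ℕ) : ZMod 2) := (ZMod.isUnit_iff_coprime _ _).2 (Nat.Coprime.pow_left l hc)
    exact hF _ _ (fun L hL => tsgb_gm G hG hmin (fun w => (hΔ w).trans (le_max_left _ _)) (by omega) hB
      (by omega) (by omega) (hun 2 _ h1.dvd) (hgm L hL)) π hπ

end PPh
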