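import Pool.Agent.H94.TG.Defs

/-!
helper94 (project MP_28250c_TM, Tseitin formulas of graphs with a large grid minor for AC0[p]-Frege): definitions.
-/

set_option autoImplicit false
open Finset

namespace PPh

open ACpFrege

/-! ### Formulas -/

section
variable {v : ℕ} (G : SimpleGraph (Fin v)) [DecidableRel G.Adj]

/-- The edges at the vertex `w`, with `true` for the edges into `w`. The edge between `a < b` is directed from `a` to `b` and has the number
`a v + b`. -/
def einc (w : Fin v) : List (ℕ × Bool) :=
  ((List.finRange v).filter fun b => G.Adj w b).map fun b => if b < w then (b.1 * v + w.1, true) else (w.1 * v + b.1, false)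

/-- The numbers of all edges. -/
def gedg : List ℕ := (List.finRange v).flatMap fun a => ((List.finRange v).filter fun b => a < b ∧ G.Adj a b).map fun b => a.1 * v + b.1

/-- The Tseitin formula modulo `q` of the graph `G` with the charges `σ`: every edge has exactly one value in `Z/q` (the value of the edge
number `e` is `c` if the variable `x_(q e + c)` is true), and at every vertex inflow minus outflow is the charge. -/
def tsg (q : ℕ) (σ : Fin v → ZMod q) : CNF :=
  (gedg G).flatMap (exone q) ++ (List.finRange v).flatMap fun w => eqc q (einc G w) (σ w)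

/-- The classical Tseitin formula (modulo 2) of the graph `G` with the charges `σ`, one variable for every edge. -/
def tsgb (σ : Fin v → ZMod 2) : CNF := (List.finRange v).flatMap fun w => eqb (einc G w) (σ w)

end

/-- The graph `G` has the `n × n` grid as a minor: there are disjoint connected nonempty sets of vertices `B (i, j)`, with an edge of `G` between the sets
of any two neighbours in the grid. -/
def GridMinor (n : ℕ) {v : ℕ} (G : SimpleGraph (Fin v)) : Prop :=
  ∃ B : ℕ → ℕ → Set (Fin v), (∀ i < n, ∀ j < n, (G.induce (B i j)).Connected) ∧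
    (∀ i < n, ∀ j < n, ∀ i' < n, ∀ j' < n, (i, j) ≠ (i', j') → Disjoint (B i j) (B i' j')) ∧
    (∀ i < n, ∀ j, j + 1 < n → ∃ a ∈ B i j, ∃ b ∈ B i (j + 1), G.Adj a b) ∧
    (∀ i, i + 1 < n → ∀ j < n, ∃ a ∈ B i j, ∃ b ∈ B (i + 1) j, G.Adj a b)

/-! ### Local substitutions -/

section
variable {K : Type} [Field K] {E : Type} [AddCommGroup E] [Module K E] {n : ℕ}

/-- The indicator of: the coordinates in `I` are those of `x`. -/
def ind (K : Type) [Field K] {n : ℕ} (I : Finset (Fin n)) (x : Pt n) : Pt n → K := fun y => ∏ i ∈ I, if y i = x i then 1 else 0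

/-- The function `P` depends only on the coordinates in `I`. -/
def Dep {n : ℕ} (I : Finset (Fin n)) (P : Pt n → K) : Prop := ∀ x y : Pt n, (∀ i ∈ I, x i = y i) → P x = P y

/-- A graded module for the flows on a directed graph: the variables are the edges `γ`, `sgn u γ` is 1 if `γ` ends in the vertex `u` and -1 if it starts there,
`inc u` contains the edges at `u` (at most `D`), `ch u` is the charge. -/
structure FlowMod (g : Gm K E n) (D : ℕ) {U : Type} (sgn : U → Fin n → ℤ) (ic : U → Finset (Fin n)) (ch : U → ℤ) : Prop where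
  card : ∀ u, (ic u).card ≤ D
  supp : ∀ u γ, γ ∉ ic u → sgn u γ = 0
  bad : ∀ u (x : Pt n), (∑ γ, if x γ then sgn u γ else 0) ≠ ch u → g.hact D (ind K (ic u) x) = 0

end

/-- Flows in the graph `G` on `Fin v` (integer valued, antisymmetric functions of pairs) which model the directed graph with edges `Fin n` and vertices `U`: `φ γ` has net
inflow `sgn u γ` at the vertex `root u` and 0 elsewhere; at a vertex `w` only the `γ` in `ic (loc w)` are used. -/
structure FlowMap {v : ℕ} (G : SimpleGraph (Fin v)) {n : ℕ} {U : Type} [Fintype U] [DecidableEq U] (sgn : U → Fin n → ℤ) (ic : U → Finset (Fin n)) (root : U → Fin v)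
    (loc : Fin v → U) (φ : Fin n → Fin v → Fin v → ℤ) : Prop where
  lroot : ∀ u, loc (root u) = u
  anti : ∀ γ a b, φ γ b a = -φ γ a b
  adj : ∀ γ a b, ¬ G.Adj a b → φ γ a b = 0
  lc : ∀ γ a b, γ ∉ ic (loc a) → φ γ a b = 0
  net : ∀ γ w, ∑ b, φ γ b w = ∑ u, if root u = w then sgn u γ else 0

/-- The value of the pair `(a, b)` at the point `x`. -/
def fval {q v n : ℕ} (z : Fin v → Fin v → ZMod q) (c : ZMod q) (φ : Fin n → Fin v → Fin v → ℤ) (x : Pt n) (a b : Fin v) : ZMod q :=
  z a b + c * ∑ γ, if x γ then (φ γ a b : ZMod q) else 0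

/-- The function: the edge number `e` has the value `s`. -/
def fvar (K : Type) [Field K] {q v n : ℕ} (z : Fin v → Fin v → ZMod q) (c : ZMod q) (φ : Fin n → Fin v → Fin v → ℤ) (e : ℕ) (s : ZMod q) : Pt n → K :=
  fun x => if h : e / v < v ∧ e % v < v then (if fval z c φ x ⟨e / v, h.1⟩ ⟨e % v, h.2⟩ = s then 1 else 0) else (if s = 0 then 1 else 0)

/-! ### The grid as a directed graph -/

/-- The edge number `γ` of the `n × n` grid (numbering `he`, `ve`) exists. -/
def gval (n : ℕ) (γ : ℕ) : Prop := if γ % 2 = 0 then γ / 2 % n + 1 < n else γ / 2 / n + 1 < n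

instance (n γ : ℕ) : Decidable (gval n γ) := by unfold gval; infer_instance

/-- The start of the edge. -/
def gsrc (n : ℕ) (γ : ℕ) : ℕ × ℕ := (γ / 2 / n, γ / 2 % n)

/-- The end of the edge. -/
def gtgt (n : ℕ) (γ : ℕ) : ℕ × ℕ := if γ % 2 = 0 then (γ / 2 / n, γ / 2 % n + 1) else (γ / 2 / n + 1, γ / 2 % n)

/-- Incidence numbers of the grid. -/
def gsgn (n : ℕ) (u : Fin n × Fin n) (γ : Fin (2 * n * n)) : ℤ :=
  if gval n γ then (if gtgt n γ = (u.1.1, u.2.1) then 1 else 0) - (if gsrc n γ = (u.1.1, u.2.1) then 1 else 0) else 0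

/-- The edges at a vertex of the grid. -/
def gic (n : ℕ) (u : Fin n × Fin n) : Finset (Fin (2 * n * n)) :=
  univ.filter fun γ => gval n γ ∧ (gtgt n γ = (u.1.1, u.2.1) ∨ gsrc n γ = (u.1.1, u.2.1))

end PPh
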