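import Pool.Agent.H94.TM.Defs
import Pool.Agent.H94.TG.Net

/-!
Row TM_Gr (project MP_28250c_TM): the formulas of graphs: unsatisfiability, sizes, incidence lists.
PROOFS. `net_einc`: for `f : ℕ → ℕ` put A := (einc G w).map fun e => (e.1, e.2, f e.1): the net value is `∑_b [Adj w b] ((if b < w then f (b v + w) else 0) - (if w < b then f (w v + b) else 0))`
(list sum over `List.finRange v` filtered = Finset sum; b = w is not adjacent). `tsg_unsat`: as `tse_unsat` in Pool/Agent/H94/TG/Net.lean: from a satisfying assignment the values `f e < q` of all edges, all vertex equations hold, and the sum of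
`net_einc` over all w is 0: every pair a < b contributes `f (a v + b)` at w = b (positive) and at w = a (negative) (`Finset.sum_comm`). Same for `tsgb_unsat`. `einc_len`: `(einc G w).length = G.degree w`
(`G.neighborFinset`, card of a filter). `einc_ne`: for a connected graph with two different vertices every vertex has a neighbour. `gedg_mem`: all edges of `einc G w` are in `gedg G`, which consists of the numbers `a v + b`, a < b adjacent.
-/

set_option autoImplicit false
open Finset

namespace PPh

open ACpFrege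

variable {v : ℕ} (G : SimpleGraph (Fin v)) [DecidableRel G.Adj]

theorem gedg_mem {e : ℕ} : e ∈ gedg G ↔ ∃ a b : Fin v, a < b ∧ G.Adj a b ∧ e = a.1 * v + b.1 := by
  unfold gedg
  rw [List.mem_flatMap]
  constructor
  · rintro ⟨a, _, h⟩
    rw [List.mem_map] at h
    obtain ⟨b, hb, rfl⟩ := h
    rw [List.mem_filter] at hb
    have h2 := of_decide_eq_true hb.2
    exact ⟨a, b, h2.1, h2.2, rfl⟩
  · rintro ⟨a, b, h1, h2, rfl⟩
    refine ⟨a, List.mem_finRange a, ?_⟩
    rw [List.mem_map]
    refine ⟨b, ?_, rfl⟩
    rw [List.mem_filter]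
    exact ⟨List.mem_finRange b, decide_eq_true ⟨h1, h2⟩⟩

theorem einc_gedg {w : Fin v} : ∀ e ∈ einc G w, e.1 ∈ gedg G := by
  intro e he
  unfold einc at he
  rw [List.mem_map] at he
  obtain ⟨b, hb, rfl⟩ := he
  rw [List.mem_filter] at hb
  have h2 : G.Adj w b := of_decide_eq_true hb.2
  rw [gedg_mem]
  by_cases h : b < w
  · rw [if_pos h]
    exact ⟨b, w, h, h2.symm, rfl⟩
  · rw [if_neg h]
    exact ⟨w, b, lt_of_le_of_ne (not_lt.1 h) h2.ne, h2, rfl⟩

theorem einc_len (w : Fin v) : (einc G w).length = G.degree w := by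
  unfold einc
  rw [List.length_map, ← SimpleGraph.card_neighborFinset_eq_degree]
  have h1 : G.neighborFinset w = ((List.finRange v).filter fun b => G.Adj w b).toFinset := by
    ext b
    rw [SimpleGraph.mem_neighborFinset, List.mem_toFinset, List.mem_filter]
    constructor
    · intro h
      exact ⟨List.mem_finRange b, decide_eq_true h⟩
    · intro h
      exact of_decide_eq_true h.2
  rw [h1, List.toFinset_card_of_nodup ((List.nodup_finRange v).filter _)]

theorem einc_ne (hG : G.Connected) {a b : Fin v} (hab : a ≠ b) (w : Fin v) : einc G w ≠ [] := by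
  have : Nontrivial (Fin v) := ⟨a, b, hab⟩
  obtain ⟨c, hc⟩ := hG.preconnected.exists_adj_of_nontrivial w
  intro h
  have h1 : c ∈ (List.finRange v).filter fun b => G.Adj w b := by
    rw [List.mem_filter]
    exact ⟨List.mem_finRange c, decide_eq_true hc⟩
  unfold einc at h
  rw [List.map_eq_nil_iff] at h
  rw [h] at h1
  exact absurd h1 List.not_mem_nil

private theorem Gr_fsum {α : Type} {M : Type} [AddCommMonoid M] (p : α → Prop) [DecidablePred p] (g : α → M) (l : List α) :
    ((l.filter fun b => p b).map g).sum = (l.map fun b => if p b then g b else 0).sum := by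
  induction l with
  | nil => rfl
  | cons a l ih =>
    rw [List.map_cons, List.sum_cons]
    by_cases h : p a
    · rw [List.filter_cons_of_pos (by exact decide_eq_true h), List.map_cons, List.sum_cons, ih, if_pos h]
    · rw [List.filter_cons_of_neg (by simpa using h), ih, if_neg h, zero_add]

theorem net_einc (q : ℕ) (w : Fin v) (f : ℕ → ℕ) : net q ((einc G w).map fun e => (e.1, e.2, f e.1)) =
    ∑ b, if G.Adj w b then (if b < w then (f (b.1 * v + w.1) : ZMod q) else -(f (w.1 * v + b.1) : ZMod q)) else 0 := by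
  unfold net einc
  rw [List.map_map, List.map_map, Fin.sum_univ_def, ← Gr_fsum (fun b => G.Adj w b)]
  refine congrArg List.sum (List.map_congr_left fun b _ => ?_)
  by_cases h : b < w
  · simp only [Function.comp_apply, h, if_true]
  · simp only [Function.comp_apply, h, if_false, Bool.false_eq_true]

private theorem Gr_tot {M : Type} [AddCommGroup M] (F : ℕ → M) :
    ∑ w : Fin v, ∑ b : Fin v, (if G.Adj w b then (if b < w then F (b.1 * v + w.1) else -F (w.1 * v + b.1)) else 0) = 0 := by
  have h1 : ∀ w b : Fin v, (if G.Adj w b then (if b < w then F (b.1 * v + w.1) else -F (w.1 * v + b.1)) else 0) =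
      (if G.Adj w b ∧ b < w then F (b.1 * v + w.1) else 0) - (if G.Adj b w ∧ w < b then F (w.1 * v + b.1) else 0) := by
    intro w b
    by_cases h : G.Adj w b
    · rcases lt_or_gt_of_ne h.ne with h2 | h2
      · rw [if_pos h, if_neg (not_lt.2 h2.le), if_neg (fun h3 => not_lt.2 h2.le h3.2), if_pos ⟨h.symm, h2⟩, zero_sub]
      · rw [if_pos h, if_pos h2, if_pos ⟨h, h2⟩, if_neg (fun h3 => not_lt.2 h2.le h3.2), sub_zero]
    · rw [if_neg h, if_neg (fun h3 => h h3.1), if_neg (fun h3 => h h3.1.symm), sub_zero]
  have h2 : ∑ w : Fin v, ∑ b : Fin v, (if G.Adj w b then (if b < w then F (b.1 * v + w.1) else -F (w.1 * v + b.1)) else 0) =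
      ∑ w : Fin v, ∑ b : Fin v, (if G.Adj w b ∧ b < w then F (b.1 * v + w.1) else 0) -
        ∑ w : Fin v, ∑ b : Fin v, (if G.Adj b w ∧ w < b then F (w.1 * v + b.1) else 0) := by
    rw [← Finset.sum_sub_distrib]
    refine Finset.sum_congr rfl fun w _ => ?_
    rw [← Finset.sum_sub_distrib]
    exact Finset.sum_congr rfl fun b _ => h1 w b
  rw [h2, sub_eq_zero]
  exact Finset.sum_comm

theorem tsg_unsat {q : ℕ} (hq : 2 ≤ q) {σ : Fin v → ZMod q} (hσ : ∑ w, σ w ≠ 0) : (tsg G q σ).Unsat := by
  intro α
  by_contra hcon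
  push Not at hcon
  have hf : ∀ e, ∃ c, e ∈ gedg G → c < q ∧ α (e * q + c) = true := by
    intro e
    by_cases he : e ∈ gedg G
    · have h1 : (List.range q).map (isv q e) ∈ tsg G q σ := by
        unfold tsg
        rw [List.mem_append]
        left
        rw [List.mem_flatMap]
        refine ⟨e, he, ?_⟩
        unfold exone
        rw [List.mem_append]
        left
        exact List.mem_singleton.2 rfl
      obtain ⟨l, hl, h2⟩ := hcon _ h1
      rw [List.mem_map] at hl
      obtain ⟨c, hc, rfl⟩ := hl
      exact ⟨c, fun _ => ⟨List.mem_range.1 hc, h2⟩⟩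
    · exact ⟨0, fun h => absurd h he⟩
  choose f hf using hf
  refine hσ ?_
  rw [← Gr_tot G (fun e => (f e : ZMod q))]
  refine Finset.sum_congr rfl fun w _ => ?_
  rw [← net_einc]
  by_contra hne
  have hmem : ((einc G w).map fun e => (e.1, e.2, f e.1)) ∈ asg q (einc G w) := by
    rw [mem_asg]
    constructor
    · rw [List.map_map]
      exact List.map_id _
    · intro x hx
      rw [List.mem_map] at hx
      obtain ⟨e, he, rfl⟩ := hx
      exact (hf e.1 (einc_gedg G e he)).1
  have h1 : (((einc G w).map fun e => (e.1, e.2, f e.1)).map fun x => nov q x.1 x.2.2) ∈ tsg G q σ := by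
    unfold tsg
    rw [List.mem_append]
    right
    rw [List.mem_flatMap]
    refine ⟨w, List.mem_finRange w, ?_⟩
    unfold eqc
    rw [List.mem_map]
    refine ⟨_, ?_, rfl⟩
    rw [List.mem_filter]
    exact ⟨hmem, decide_eq_true (fun h => hne h.symm)⟩
  obtain ⟨l, hl, h2⟩ := hcon _ h1
  rw [List.map_map, List.mem_map] at hl
  obtain ⟨e, he, rfl⟩ := hl
  have h3 := (hf e.1 (einc_gedg G e he)).2
  have h4 : α (e.1 * q + f e.1) = false := h2
  rw [h3] at h4
  exact absurd h4 (by decide)

theorem tsgb_unsat {σ : Fin v → ZMod 2} (hσ : ∑ w, σ w ≠ 0) : (tsgb G σ).Unsat := by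
  intro α
  by_contra hcon
  push Not at hcon
  obtain ⟨f, hfd⟩ : ∃ f : ℕ → ℕ, ∀ e, f e = if α e = true then 1 else 0 := ⟨fun e => if α e = true then 1 else 0, fun e => rfl⟩
  refine hσ ?_
  rw [← Gr_tot G (fun e => (f e : ZMod 2))]
  refine Finset.sum_congr rfl fun w _ => ?_
  rw [← net_einc]
  by_contra hne
  have hmem : ((einc G w).map fun e => (e.1, e.2, f e.1)) ∈ asg 2 (einc G w) := by
    rw [mem_asg]
    constructor
    · rw [List.map_map]
      exact List.map_id _
    · intro x hx
      rw [List.mem_map] at hx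
      obtain ⟨e, he, rfl⟩ := hx
      show f e.1 < 2
      rw [hfd]
      split_ifs <;> omega
  have h1 : (((einc G w).map fun e => (e.1, e.2, f e.1)).map fun x => (x.1, decide (x.2.2 = 0))) ∈ tsgb G σ := by
    unfold tsgb
    rw [List.mem_flatMap]
    refine ⟨w, List.mem_finRange w, ?_⟩
    unfold eqb
    rw [List.mem_map]
    refine ⟨_, ?_, rfl⟩
    rw [List.mem_filter]
    exact ⟨hmem, decide_eq_true (fun h => hne h.symm)⟩
  obtain ⟨l, hl, h2⟩ := hcon _ h1
  rw [List.map_map, List.mem_map] at hl
  obtain ⟨e, he, rfl⟩ := hl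
  have h4 : α e.1 = decide (f e.1 = 0) := h2
  rw [hfd] at h4
  cases hα : α e.1
  · rw [hα] at h4
    exact absurd h4 (by decide)
  · rw [hα] at h4
    exact absurd h4 (by decide)

end PPh
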