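import Pool.Agent.H94.TM.Main
import Pool.Agent.H94.PP.Final

/-!
helper94 (project MP_28250c_TM): Tseitin formulas of bounded degree graphs with a large grid minor.
-/

set_option autoImplicit false

namespace PPh

theorem mainTM : StatementTM := tm_of fun p _ => outM_all p

end PPh
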