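import Pool.Agent.H94.TM.Defs
import Pool.Agent.H56.PP.GmAct

/-!
Row TM_Dp (project MP_28250c_TM): functions which depend on few coordinates.
PROOFS. `dep_exp`: a function `P` depending only on the coordinates in `I` is `P = ∑_(S ∈ I.powerset) P (χ_S) • ind I χ_S`, `χ_S i = decide (i ∈ S)`: at a point `y` exactly the S = {i ∈ I : y i = true} has `ind I χ_S y = 1`
(all other indicators vanish), and `P χ_S = P y` by `Dep`. `ind_dg`: `ind I x` is a product over I of `mono {i}` (x i true) or `1 - mono {i}`, each in `Dg 1` (`Dg_prod`, `mono_single`). `dep_dg`: both. `dep_hact`: `hact m` of each term: if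
`P χ_S ≠ 0` then `hact D (ind I χ_S) = 0` by hypothesis, so `hact m (ind I χ_S) = J^(m-D) * hact D (..) = 0` (`hact_up'`, `ind I x ∈ Dg D`); `hact_sum`, `hact_smul`.
`dep_mul`, `dep_prod`: obvious.
-/

set_option autoImplicit false
open Finset

namespace PPh

open ACpFrege

variable {K : Type} [Field K] {E : Type} [AddCommGroup E] [Module K E] {n : ℕ}

private theorem Dp_eq (I : Finset (Fin n)) (x : Pt n) :
    ind K I x = ∏ i ∈ I, (fun y : Pt n => if y i = x i then (1 : K) else 0) := by
  funext y
  rw [Finset.prod_apply]
  rfl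

theorem ind_dg (I : Finset (Fin n)) (x : Pt n) : ind K I x ∈ Dg K n I.card := by
  rw [Dp_eq]
  have h := Dg_prod (K := K) (n := n) (a := 1) I (fun i => (fun y : Pt n => if y i = x i then (1 : K) else 0)) (fun i _ => by
    have h1 : mono K {i} ∈ Dg K n 1 := mono_mem _ (by rw [Finset.card_singleton])
    cases hx : x i
    · have h2 : (fun y : Pt n => if y i = false then (1 : K) else 0) = 1 - mono K {i} := by
        rw [mono_single]
        funext y
        show (if y i = false then (1 : K) else 0) = 1 - (if y i = true then (1 : K) else 0)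
        cases y i <;> simp
      rw [h2]
      exact Submodule.sub_mem _ (Dg_one _) h1
    · have h2 : (fun y : Pt n => if y i = true then (1 : K) else 0) = mono K {i} := by
        rw [mono_single]
      rw [h2]
      exact h1)
  rwa [mul_one] at h

theorem ind_self (I : Finset (Fin n)) (x : Pt n) : ind K I x x = 1 := by
  unfold ind
  exact Finset.prod_eq_one fun i _ => if_pos rfl

theorem dep_exp {I : Finset (Fin n)} {P : Pt n → K} (h : Dep I P) :
    P = ∑ S ∈ I.powerset, P (fun i => decide (i ∈ S)) • ind K I (fun i => decide (i ∈ S)) := by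
  classical
  funext y
  rw [Finset.sum_apply]
  have hS : I.filter (fun i => y i = true) ∈ I.powerset := Finset.mem_powerset.2 (Finset.filter_subset _ _)
  rw [Finset.sum_eq_single_of_mem _ hS]
  · have h1 : P (fun i => decide (i ∈ I.filter fun i => y i = true)) = P y := by
      refine h _ _ fun i hi => ?_
      show decide (i ∈ I.filter fun i => y i = true) = y i
      cases hy : y i <;> simp [hi, hy]
    have h2 : ind K I (fun i => decide (i ∈ I.filter fun i => y i = true)) y = 1 := by
      unfold ind
      refine Finset.prod_eq_one fun i hi => if_pos ?_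
      show y i = decide (i ∈ I.filter fun i => y i = true)
      cases hy : y i <;> simp [hi, hy]
    rw [Pi.smul_apply, h1, h2, smul_eq_mul, mul_one]
  · intro S hS' hne
    have h3 : ind K I (fun i => decide (i ∈ S)) y = 0 := by
      unfold ind
      by_contra h4
      apply hne
      ext i
      rw [Finset.mem_filter]
      have h5 : ∀ i ∈ I, y i = decide (i ∈ S) := by
        intro i hi
        by_contra h6
        exact h4 (Finset.prod_eq_zero hi (if_neg h6))
      constructor
      · intro hi
        have hiI := Finset.mem_powerset.1 hS' hi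
        exact ⟨hiI, by rw [h5 i hiI]; exact decide_eq_true hi⟩
      · rintro ⟨hiI, hy⟩
        rw [h5 i hiI] at hy
        exact of_decide_eq_true hy
    rw [Pi.smul_apply, h3, smul_zero]

theorem dep_dg {I : Finset (Fin n)} {P : Pt n → K} (h : Dep I P) : P ∈ Dg K n I.card := by
  rw [dep_exp h]
  exact Submodule.sum_mem _ fun S _ => Submodule.smul_mem _ _ (ind_dg I _)

theorem dep_hact (g : Gm K E n) {I : Finset (Fin n)} {D m : ℕ} (hI : I.card ≤ D) (hm : D ≤ m) {P : Pt n → K} (h : Dep I P)
    (h0 : ∀ x, P x ≠ 0 → g.hact D (ind K I x) = 0) : g.hact m P = 0 := by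
  rw [dep_exp h, g.hact_sum]
  refine Finset.sum_eq_zero fun S _ => ?_
  rw [g.hact_smul]
  by_cases hP : P (fun i => decide (i ∈ S)) = 0
  · rw [hP, zero_smul]
  · rw [g.hact_up' (Dg_mono hI (ind_dg I _)) hm, h0 _ hP, mul_zero, smul_zero]

theorem dep_list {I : Finset (Fin n)} (l : List (Pt n → K)) (h : ∀ P ∈ l, Dep I P) : Dep I l.prod := by
  induction l with
  | nil =>
    intro x y _
    rw [List.prod_nil]
    rfl
  | cons P l ih =>
    intro x y hxy
    rw [List.prod_cons, Pi.mul_apply, Pi.mul_apply, h P List.mem_cons_self x y hxy,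
      ih (fun Q hQ => h Q (List.mem_cons_of_mem _ hQ)) x y hxy]

theorem dep_one_sub {I : Finset (Fin n)} {P : Pt n → K} (h : Dep I P) : Dep I (1 - P) := by
  intro x y hxy
  show 1 - P x = 1 - P y
  rw [h x y hxy]

end PPh
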