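import Pool.Agent.H94.TM.Fs
import Pool.Agent.H94.TM.Dep
import Pool.Agent.H94.TG.Cls

/-!
Row TM_Ba (project MP_28250c_TM): the flow module of the grid.
PROOFS. `gic_card`: the edges at (i, j) are among he (i, j-1), ve (i-1, j), he (i, j), ve (i, j) (numbers below 2 N N). `gsgn_supp`: obvious from the definitions. `bad`: let u = (i, j), x a point with `∑_γ [x γ] gsgn u γ ≠ chg N N m n 1 i j`.
Put `A := (inc N N i j).map fun e => (e.1, e.2, if x e then 1 else 0)` (e.1 < 2 N N). The net value over ZMod 0 = ℤ is `∑_γ [x γ] gsgn u γ` (four cases of the edges), so `vert_zero` (TG/Cls.lean) with q = 0, zh = zv = 0, a = 1, M = N = N gives `(A.map OE ..).prod = 0`,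
where `OE J x m n N 0 0 1 ν 1 = YE ν` and `OE .. ν 0 = J - YE ν` (wop with z = 0, a = 1 in ZMod 0: `zE 0 0 = 0`, 0 ≠ 1). On the other side, in the module `g0 := g.sub (fun γ => YE x m n N γ) ..`, `ind K (gic u) x` is the product over γ ∈ gic u (= the edges of `inc N N i j`, each once) of `mono {γ}` resp.
`1 - mono {γ}`, so by `hact_mul`, `hact_var`, `hact_one` its `hact (gic u).card` is the product of `YE γ` resp. `J - YE γ` = 0, and `hact 4 = J^(4 - card) * hact card` (`hact_up'`, `ind_dg`).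
-/

set_option autoImplicit false
open Finset

namespace PPh

open ACpFrege

private theorem Ba_he {N i j : ℕ} (hj : j < N) : he N i j % 2 = 0 ∧ he N i j / 2 / N = i ∧ he N i j / 2 % N = j := by
  have h2 : he N i j / 2 = i * N + j := by unfold he; omega
  refine ⟨by unfold he; omega, ?_, ?_⟩
  · rw [h2, Nat.add_comm, Nat.add_mul_div_right _ _ (by omega), Nat.div_eq_of_lt hj, Nat.zero_add]
  · rw [h2, Nat.add_comm, Nat.add_mul_mod_self_right, Nat.mod_eq_of_lt hj]

private theorem Ba_ve {N i j : ℕ} (hj : j < N) : ve N i j % 2 = 1 ∧ ve N i j / 2 / N = i ∧ ve N i j / 2 % N = j := by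
  have h2 : ve N i j / 2 = i * N + j := by unfold ve; omega
  refine ⟨by unfold ve; omega, ?_, ?_⟩
  · rw [h2, Nat.add_comm, Nat.add_mul_div_right _ _ (by omega), Nat.div_eq_of_lt hj, Nat.zero_add]
  · rw [h2, Nat.add_comm, Nat.add_mul_mod_self_right, Nat.mod_eq_of_lt hj]

private theorem Ba_lt {N i j : ℕ} (hi : i < N) (hj : j < N) : i * N + j + 1 ≤ N * N := by
  have h1 : (i + 1) * N ≤ N * N := Nat.mul_le_mul_right N hi
  rw [Nat.add_mul, Nat.one_mul] at h1
  omega

private theorem Ba_he_lt {N i j : ℕ} (hi : i < N) (hj : j < N) : he N i j < 2 * N * N := by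
  have h := Ba_lt hi hj
  unfold he
  rw [Nat.mul_assoc]
  omega

private theorem Ba_ve_lt {N i j : ℕ} (hi : i < N) (hj : j < N) : ve N i j < 2 * N * N := by
  have h := Ba_lt hi hj
  unfold ve
  rw [Nat.mul_assoc]
  omega

private theorem Ba_mem_inc {N i j : ℕ} {e : ℕ × Bool} : e ∈ inc N N i j ↔
    (0 < j ∧ e = (he N i (j - 1), true)) ∨ (0 < i ∧ e = (ve N (i - 1) j, true)) ∨
      (j + 1 < N ∧ e = (he N i j, false)) ∨ (i + 1 < N ∧ e = (ve N i j, false)) := by
  unfold inc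
  rw [List.mem_append, List.mem_append, List.mem_append]
  by_cases h1 : 0 < j <;> by_cases h2 : 0 < i <;> by_cases h3 : j + 1 < N <;> by_cases h4 : i + 1 < N <;>
    simp only [h1, h2, h3, h4, if_true, if_false, List.mem_singleton, List.not_mem_nil, true_and, false_and, or_false, false_or, or_assoc]

private theorem Ba_inc_lt {N i j : ℕ} (hi : i < N) (hj : j < N) {e : ℕ × Bool} (h : e ∈ inc N N i j) : e.1 < 2 * N * N := by
  rw [Ba_mem_inc] at h
  rcases h with ⟨h, rfl⟩ | ⟨h, rfl⟩ | ⟨h, rfl⟩ | ⟨h, rfl⟩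
  · exact Ba_he_lt hi (by omega)
  · exact Ba_ve_lt (by omega) hj
  · exact Ba_he_lt hi hj
  · exact Ba_ve_lt hi hj

private theorem Ba_he_ne {N i j : ℕ} (h : 0 < j) (hN : j < N) : he N i (j - 1) ≠ he N i j := by
  unfold he
  omega

private theorem Ba_ve_ne {N i j : ℕ} (h : 0 < i) (hN : j < N) : ve N (i - 1) j ≠ ve N i j := by
  have h1 : i * N = (i - 1) * N + N := by
    obtain ⟨k, rfl⟩ := Nat.exists_eq_succ_of_ne_zero (Nat.pos_iff_ne_zero.mp h)
    rw [Nat.succ_eq_add_one, Nat.add_sub_cancel, Nat.add_mul, Nat.one_mul]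
  unfold ve
  omega

private theorem Ba_he_ve (N i j i' j' : ℕ) : he N i j ≠ ve N i' j' := by
  unfold he ve
  omega

private theorem Ba_nodup {N i j : ℕ} (hj : j < N) : ((inc N N i j).map Prod.fst).Nodup := by
  have n1 : ∀ a b c d, he N a b ≠ ve N c d := Ba_he_ve N
  have n2 : ∀ a b c d, ve N a b ≠ he N c d := fun a b c d h => n1 _ _ _ _ h.symm
  unfold inc
  by_cases h1 : 0 < j <;> by_cases h2 : 0 < i <;> by_cases h3 : j + 1 < N <;> by_cases h4 : i + 1 < N <;>
    simp [h1, h2, h3, h4, n1, n2, Ba_he_ne, Ba_ve_ne, hj]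

private theorem Ba_len (N i j : ℕ) : (inc N N i j).length ≤ 4 := by
  unfold inc
  split_ifs <;> simp

private theorem Ba_edge {N : ℕ} (γ : ℕ) (hN : 0 < N) : (γ % 2 = 0 → γ = he N (γ / 2 / N) (γ / 2 % N)) ∧ (γ % 2 = 1 → γ = ve N (γ / 2 / N) (γ / 2 % N)) := by
  have h := Nat.div_add_mod (γ / 2) N
  have h2 : γ / 2 / N * N = N * (γ / 2 / N) := Nat.mul_comm _ _
  unfold he ve
  constructor <;> intro h3 <;> omega

private theorem Ba_gic {N : ℕ} (u : Fin N × Fin N) (γ : Fin (2 * N * N)) :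
    γ ∈ gic N u ↔ γ.1 ∈ (inc N N u.1.1 u.2.1).map Prod.fst := by
  obtain ⟨⟨i, hi⟩, ⟨j, hj⟩⟩ := u
  obtain ⟨γ, hγ⟩ := γ
  have hN : 0 < N := by omega
  unfold gic
  rw [mem_filter, List.mem_map]
  simp only [mem_univ, true_and]
  have hb : γ / 2 % N < N := Nat.mod_lt _ hN
  have hγ2 : γ < 2 * (N * N) := by
    rw [← Nat.mul_assoc]
    exact hγ
  have ha : γ / 2 / N < N := Nat.div_lt_of_lt_mul ((Nat.div_lt_iff_lt_mul (by norm_num)).mpr (by rw [Nat.mul_comm]; exact hγ2))
  constructor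
  · rintro ⟨h1, h2⟩
    unfold gval at h1
    unfold gtgt gsrc at h2
    rcases Nat.mod_two_eq_zero_or_one γ with h0 | h0
    · rw [if_pos h0] at h1 h2
      have hγ' := (Ba_edge γ hN).1 h0
      rcases h2 with h2 | h2
      · rw [Prod.mk.injEq] at h2
        refine ⟨(he N i (j - 1), true), Ba_mem_inc.mpr (Or.inl ⟨h2.2 ▸ Nat.succ_pos _, rfl⟩), ?_⟩
        show he N i (j - 1) = γ
        rw [hγ', ← h2.1, ← h2.2, Nat.add_sub_cancel, ← hγ']
      · rw [Prod.mk.injEq] at h2
        refine ⟨(he N i j, false), Ba_mem_inc.mpr (Or.inr (Or.inr (Or.inl ⟨h2.2 ▸ h1, rfl⟩))), ?_⟩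
        show he N i j = γ
        rw [hγ', ← h2.1, ← h2.2, ← hγ']
    · have h0' : ¬ γ % 2 = 0 := by omega
      rw [if_neg h0'] at h1 h2
      have hγ' := (Ba_edge γ hN).2 h0
      rcases h2 with h2 | h2
      · rw [Prod.mk.injEq] at h2
        refine ⟨(ve N (i - 1) j, true), Ba_mem_inc.mpr (Or.inr (Or.inl ⟨h2.1 ▸ Nat.succ_pos _, rfl⟩)), ?_⟩
        show ve N (i - 1) j = γ
        rw [hγ', ← h2.1, ← h2.2, Nat.add_sub_cancel, ← hγ']
      · rw [Prod.mk.injEq] at h2
        refine ⟨(ve N i j, false), Ba_mem_inc.mpr (Or.inr (Or.inr (Or.inr ⟨h2.1 ▸ h1, rfl⟩))), ?_⟩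
        show ve N i j = γ
        rw [hγ', ← h2.1, ← h2.2, ← hγ']
  · rintro ⟨e, he', rfl⟩
    rw [Ba_mem_inc] at he'
    rcases he' with ⟨h, rfl⟩ | ⟨h, rfl⟩ | ⟨h, rfl⟩ | ⟨h, rfl⟩
    · obtain ⟨q1, q2, q3⟩ := Ba_he (N := N) (i := i) (j := j - 1) (by omega)
      dsimp only
      unfold gval gtgt gsrc
      simp only [q1, q2, q3, if_true, Prod.mk.injEq]
      exact ⟨by omega, Or.inl ⟨trivial, by omega⟩⟩
    · obtain ⟨q1, q2, q3⟩ := Ba_ve (N := N) (i := i - 1) (j := j) hj
      dsimp only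
      unfold gval gtgt gsrc
      simp only [q1, q2, q3, one_ne_zero, if_false, Prod.mk.injEq]
      exact ⟨by omega, Or.inl ⟨by omega, trivial⟩⟩
    · obtain ⟨q1, q2, q3⟩ := Ba_he (N := N) (i := i) (j := j) hj
      dsimp only
      unfold gval gtgt gsrc
      simp only [q1, q2, q3, if_true, Prod.mk.injEq]
      exact ⟨by omega, Or.inr trivial⟩
    · obtain ⟨q1, q2, q3⟩ := Ba_ve (N := N) (i := i) (j := j) hj
      dsimp only
      unfold gval gtgt gsrc
      simp only [q1, q2, q3, one_ne_zero, if_false, Prod.mk.injEq]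
      exact ⟨by omega, Or.inr trivial⟩

private theorem Ba_sgn {N : ℕ} (u : Fin N × Fin N) {e : ℕ × Bool} (h : e ∈ inc N N u.1.1 u.2.1) (hlt : e.1 < 2 * N * N) :
    gsgn N u ⟨e.1, hlt⟩ = if e.2 then 1 else -1 := by
  obtain ⟨⟨i, hi⟩, ⟨j, hj⟩⟩ := u
  rw [Ba_mem_inc] at h
  rcases h with ⟨h, rfl⟩ | ⟨h, rfl⟩ | ⟨h, rfl⟩ | ⟨h, rfl⟩
  · obtain ⟨q1, q2, q3⟩ := Ba_he (N := N) (i := i) (j := j - 1) (by dsimp only at h; omega)
    dsimp only at h ⊢
    have g1 : gval N (he N i (j - 1)) := by unfold gval; rw [if_pos q1, q3]; omega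
    have g2 : gtgt N (he N i (j - 1)) = (i, j) := by unfold gtgt; rw [if_pos q1, q2, q3, Nat.sub_add_cancel h]
    have g3 : gsrc N (he N i (j - 1)) ≠ (i, j) := by
      unfold gsrc
      rw [q2, q3]
      intro h'
      rw [Prod.mk.injEq] at h'
      omega
    unfold gsgn
    dsimp only
    rw [if_pos g1, if_pos g2, if_neg g3, if_pos rfl, sub_zero]
  · obtain ⟨q1, q2, q3⟩ := Ba_ve (N := N) (i := i - 1) (j := j) hj
    dsimp only at h ⊢
    have q1' : ¬ ve N (i - 1) j % 2 = 0 := by omega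
    have g1 : gval N (ve N (i - 1) j) := by unfold gval; rw [if_neg q1', q2]; omega
    have g2 : gtgt N (ve N (i - 1) j) = (i, j) := by unfold gtgt; rw [if_neg q1', q2, q3, Nat.sub_add_cancel h]
    have g3 : gsrc N (ve N (i - 1) j) ≠ (i, j) := by
      unfold gsrc
      rw [q2, q3]
      intro h'
      rw [Prod.mk.injEq] at h'
      omega
    unfold gsgn
    dsimp only
    rw [if_pos g1, if_pos g2, if_neg g3, if_pos rfl, sub_zero]
  · obtain ⟨q1, q2, q3⟩ := Ba_he (N := N) (i := i) (j := j) hj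
    dsimp only at h ⊢
    have g1 : gval N (he N i j) := by unfold gval; rw [if_pos q1, q3]; omega
    have g2 : gtgt N (he N i j) ≠ (i, j) := by
      unfold gtgt
      rw [if_pos q1, q2, q3]
      intro h'
      rw [Prod.mk.injEq] at h'
      omega
    have g3 : gsrc N (he N i j) = (i, j) := by unfold gsrc; rw [q2, q3]
    unfold gsgn
    dsimp only
    rw [if_pos g1, if_neg g2, if_pos g3, if_neg Bool.false_ne_true, zero_sub]
  · obtain ⟨q1, q2, q3⟩ := Ba_ve (N := N) (i := i) (j := j) hj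
    dsimp only at h ⊢
    have q1' : ¬ ve N i j % 2 = 0 := by omega
    have g1 : gval N (ve N i j) := by unfold gval; rw [if_neg q1', q2]; omega
    have g2 : gtgt N (ve N i j) ≠ (i, j) := by
      unfold gtgt
      rw [if_neg q1', q2, q3]
      intro h'
      rw [Prod.mk.injEq] at h'
      omega
    have g3 : gsrc N (ve N i j) = (i, j) := by unfold gsrc; rw [q2, q3]
    unfold gsgn
    dsimp only
    rw [if_pos g1, if_neg g2, if_pos g3, if_neg Bool.false_ne_true, zero_sub]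

private theorem Ba_image {N : ℕ} (u : Fin N × Fin N) :
    (gic N u).image Fin.val = ((inc N N u.1.1 u.2.1).map Prod.fst).toFinset := by
  ext ν
  rw [mem_image, List.mem_toFinset]
  constructor
  · rintro ⟨γ, hγ, rfl⟩
    exact (Ba_gic u γ).mp hγ
  · intro h
    have hlt : ν < 2 * N * N := by
      rw [List.mem_map] at h
      obtain ⟨e, he', rfl⟩ := h
      exact Ba_inc_lt u.1.2 u.2.2 he'
    exact ⟨⟨ν, hlt⟩, (Ba_gic u ⟨ν, hlt⟩).mpr h, rfl⟩

private theorem Ba_card {N : ℕ} (u : Fin N × Fin N) : (gic N u).card = (inc N N u.1.1 u.2.1).length := by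
  rw [← card_image_of_injective (gic N u) Fin.val_injective, Ba_image, List.toFinset_card_of_nodup (Ba_nodup u.2.2), List.length_map]

theorem gic_card (N : ℕ) (u : Fin N × Fin N) : (gic N u).card ≤ 4 := by
  rw [Ba_card]
  exact Ba_len N _ _

/-- Products over the edges at a vertex as products of lists. -/
private theorem Ba_prod {R : Type} [CommMonoid R] {N : ℕ} (u : Fin N × Fin N) (f : ℕ → R) :
    ∏ γ ∈ gic N u, f γ.1 = ((inc N N u.1.1 u.2.1).map fun e => f e.1).prod := by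
  rw [← prod_image (s := gic N u) (g := Fin.val) (f := f) (fun a _ b _ h => Fin.val_injective h), Ba_image,
    List.prod_toFinset f (Ba_nodup u.2.2), List.map_map]
  rfl

private theorem Ba_sum {R : Type} [AddCommMonoid R] {N : ℕ} (u : Fin N × Fin N) (f : ℕ → R) :
    ∑ γ ∈ gic N u, f γ.1 = ((inc N N u.1.1 u.2.1).map fun e => f e.1).sum := by
  rw [← sum_image (s := gic N u) (g := Fin.val) (f := f) (fun a _ b _ h => Fin.val_injective h), Ba_image,
    List.sum_toFinset f (Ba_nodup u.2.2), List.map_map]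
  rfl

private theorem Ba_supp (N : ℕ) (u : Fin N × Fin N) (γ : Fin (2 * N * N)) (h : γ ∉ gic N u) : gsgn N u γ = 0 := by
  unfold gic at h
  rw [mem_filter] at h
  simp only [mem_univ, true_and, not_and, not_or] at h
  unfold gsgn
  split_ifs with h1 h2 h3 h3
  · exact absurd h2 (h h1).1
  · exact absurd h2 (h h1).1
  · exact absurd h3 (h h1).2
  · rfl
  · rfl

section
variable {K : Type} [Field K] {E : Type} [AddCommGroup E] [Module K E] {n₀ : ℕ} {g : Gm K E n₀} {x : ℕ → ℕ → E →ₗ[K] E} {m n : ℕ}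

/-- The graded module with the edges of the `N × N` grid as variables. -/
noncomputable def gbase (h : OPM g x m n) (N : ℕ) : Gm K E (2 * N * N) :=
  g.sub (fun γ : Fin (2 * N * N) => YE x m n N γ.1) (fun γ => YE_op h N γ.1) fun γ => YE_sq h N γ.1

private theorem Ba_hact_list {n : ℕ} (g : Gm K E n) (l : List (Pt n → K)) (hl : ∀ P ∈ l, P ∈ Dg K n 1) :
    l.prod ∈ Dg K n l.length ∧ g.hact l.length l.prod = (l.map fun P => g.hact 1 P).prod := by
  induction l with
  | nil =>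
    refine ⟨by simpa using Dg_one 0, ?_⟩
    rw [List.prod_nil, List.length_nil, g.hact_one, pow_zero, List.map_nil, List.prod_nil]
  | cons P l ih =>
    obtain ⟨h1, h2⟩ := ih fun Q hQ => hl Q (List.mem_cons_of_mem _ hQ)
    have hP := hl P List.mem_cons_self
    rw [List.prod_cons, List.length_cons, Nat.add_comm, List.map_cons, List.prod_cons]
    exact ⟨Dg_mul hP h1, by rw [g.hact_mul hP h1, h2]⟩

/-- The indicator of one coordinate. -/
private theorem Ba_lit {n : ℕ} (g : Gm K E n) (γ : Fin n) (b : Bool) :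
    (fun y : Pt n => (if y γ = b then (1 : K) else 0)) ∈ Dg K n 1 ∧
      g.hact 1 (fun y : Pt n => (if y γ = b then (1 : K) else 0)) = if b then g.X γ else g.J - g.X γ := by
  cases b with
  | true =>
    have h : (fun y : Pt n => (if y γ = true then (1 : K) else 0)) = mono K {γ} := by rw [mono_single]
    rw [h]
    exact ⟨mono_mem _ (by simp), by rw [g.hact_var, if_pos rfl]⟩
  | false =>
    have h : (fun y : Pt n => (if y γ = false then (1 : K) else 0)) = 1 - mono K {γ} := by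
      rw [mono_single]
      funext y
      show (if y γ = false then (1 : K) else 0) = 1 - if y γ = true then 1 else 0
      cases y γ <;> simp
    rw [h]
    refine ⟨Submodule.sub_mem _ (Dg_one 1) (mono_mem _ (by simp)), ?_⟩
    rw [g.hact_sub, g.hact_one, g.hact_var, pow_one, if_neg Bool.false_ne_true]

private theorem Ba_net (q : ℕ) (y' : ℕ → Bool) (l : List (ℕ × Bool)) :
    net q (l.map fun e => (e.1, e.2, if y' e.1 then 1 else 0)) =
      Int.castRingHom (ZMod q) ((l.map fun e => if y' e.1 then (if e.2 then (1 : ℤ) else -1) else 0).sum) := by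
  unfold net
  rw [List.map_map, map_list_sum, List.map_map]
  refine congrArg List.sum (List.map_congr_left fun e _ => ?_)
  show (if e.2 then (((if y' e.1 then 1 else 0 : ℕ)) : ZMod q) else -(((if y' e.1 then 1 else 0 : ℕ)) : ZMod q)) =
    Int.castRingHom (ZMod q) (if y' e.1 then (if e.2 then (1 : ℤ) else -1) else 0)
  cases e.2 <;> cases y' e.1 <;> simp

private theorem Ba_chg (q N m n i j : ℕ) : chg N N m n (1 : ZMod q) i j = Int.castRingHom (ZMod q) (chg N N m n (1 : ℤ) i j) := by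
  unfold chg dv bh bv
  simp only [apply_ite (Int.castRingHom (ZMod q)), map_sub, map_add, map_zero, map_one]

private theorem Ba_inj (q : ℕ) (hq : q = 0) (a b : ℤ) (h : Int.castRingHom (ZMod q) a = Int.castRingHom (ZMod q) b) : a = b := by
  rw [eq_intCast, eq_intCast, ZMod.intCast_eq_intCast_iff] at h
  subst hq
  have h' : a % ((0 : ℕ) : ℤ) = b % ((0 : ℕ) : ℤ) := h
  simpa using h'

private theorem Ba_OE (q : ℕ) (hq : q ≠ 1) (J : E →ₗ[K] E) (x : ℕ → ℕ → E →ₗ[K] E) (m n N ν : ℕ) (b : Bool) :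
    OE J x m n N (fun _ _ => (0 : ZMod q)) (fun _ _ => (0 : ZMod q)) 1 ν (((if b then 1 else 0 : ℕ)) : ZMod q) =
      if b then YE x m n N ν else J - YE x m n N ν := by
  have h1 : (1 : ZMod q) ≠ 0 := by
    intro h
    have h2 : ((1 : ℕ) : ZMod q) = ((0 : ℕ) : ZMod q) := by rw [Nat.cast_one, Nat.cast_zero, h]
    rw [ZMod.natCast_eq_natCast_iff] at h2
    apply hq
    have h3 : q ∣ 1 := by
      have := (Nat.modEq_iff_dvd' (Nat.zero_le 1)).mp h2.symm
      simpa using this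
    exact Nat.dvd_one.mp h3
  unfold OE wop zE
  rw [ite_self]
  cases b with
  | true => simp [h1]
  | false => simp

theorem gbase_flow (h : OPM g x m n) (hm1 : 1 ≤ m) (hn1 : 1 ≤ n) {N : ℕ} (hm : m + 2 ≤ N) (hn : n + 2 ≤ N) :
    FlowMod (gbase h N) 4 (gsgn N) (gic N) (fun u => chg N N m n (1 : ℤ) u.1.1 u.2.1) := by
  refine ⟨gic_card N, Ba_supp N, fun u y hne => ?_⟩
  set g0 := gbase h N with hg0
  set y' : ℕ → Bool := fun ν => if hν : ν < 2 * N * N then y ⟨ν, hν⟩ else false with hy'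
  have hyy : ∀ γ : Fin (2 * N * N), y' γ.1 = y γ := fun γ => by
    rw [hy']
    show (if hν : γ.1 < 2 * N * N then y ⟨γ.1, hν⟩ else false) = y γ
    rw [dif_pos γ.2]
  have hlt : ∀ e ∈ inc N N u.1.1 u.2.1, e.1 < 2 * N * N := fun e he' => Ba_inc_lt u.1.2 u.2.2 he'
  set A : List (ℕ × Bool × ℕ) := (inc N N u.1.1 u.2.1).map fun e => (e.1, e.2, if y' e.1 then 1 else 0) with hA
  have hAi : (A.map fun x => (x.1, x.2.1)) = inc N N u.1.1 u.2.1 := by
    rw [hA, List.map_map]
    exact List.map_id _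
  -- the net value
  have hsum : (∑ γ, if y γ then gsgn N u γ else 0) = ((inc N N u.1.1 u.2.1).map fun e => if y' e.1 then (if e.2 then (1 : ℤ) else -1) else 0).sum := by
    have h1 : (∑ γ, if y γ then gsgn N u γ else 0) =
        ∑ γ ∈ gic N u, (fun ν => if hν : ν < 2 * N * N then (if y ⟨ν, hν⟩ then gsgn N u ⟨ν, hν⟩ else 0) else 0) γ.1 := by
      rw [← sum_subset (subset_univ (gic N u)) (fun γ _ hγ => by rw [Ba_supp N u γ hγ, ite_self])]
      refine sum_congr rfl fun γ _ => ?_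
      show _ = (if hν : γ.1 < 2 * N * N then (if y ⟨γ.1, hν⟩ then gsgn N u ⟨γ.1, hν⟩ else 0) else 0)
      rw [dif_pos γ.2]
    rw [h1]
    refine (Ba_sum u (fun ν => if hν : ν < 2 * N * N then (if y ⟨ν, hν⟩ then gsgn N u ⟨ν, hν⟩ else 0) else 0)).trans ?_
    refine congrArg List.sum (List.map_congr_left fun e he' => ?_)
    show (if hν : e.1 < 2 * N * N then (if y ⟨e.1, hν⟩ then gsgn N u ⟨e.1, hν⟩ else 0) else 0) = _
    rw [dif_pos (hlt e he'), Ba_sgn u he' (hlt e he'), ← hyy ⟨e.1, hlt e he'⟩]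
  have hnet : net 0 A = Int.castRingHom (ZMod 0) (∑ γ, if y γ then gsgn N u γ else 0) := by
    rw [hsum, hA]
    exact Ba_net 0 y' _
  have hdv0 : dv N N (fun _ _ => (0 : ZMod 0)) (fun _ _ => (0 : ZMod 0)) u.1.1 u.2.1 = 0 := by
    unfold dv
    simp
  have hne' : net 0 A ≠ dv N N (fun _ _ => (0 : ZMod 0)) (fun _ _ => (0 : ZMod 0)) u.1.1 u.2.1 + chg N N m n (1 : ZMod 0) u.1.1 u.2.1 := by
    rw [hdv0, zero_add, hnet, Ba_chg 0]
    intro h'
    exact hne (Ba_inj 0 rfl _ _ h')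
  have hz := vert_zero h hm1 hn1 hm hn (fun _ _ => (0 : ZMod 0)) (fun _ _ => (0 : ZMod 0)) 1 u.1.2 u.2.2 A hAi hne'
  -- the indicator
  set P : ℕ → (Pt (2 * N * N) → K) := fun ν => if hν : ν < 2 * N * N then (fun z : Pt (2 * N * N) => (if z ⟨ν, hν⟩ = y ⟨ν, hν⟩ then (1 : K) else 0)) else 1
    with hP
  have hPe : ∀ (ν : ℕ) (hν : ν < 2 * N * N), P ν = fun z : Pt (2 * N * N) => (if z ⟨ν, hν⟩ = y ⟨ν, hν⟩ then (1 : K) else 0) := by
    intro ν hν
    rw [hP]
    show (if hν : ν < 2 * N * N then (fun z : Pt (2 * N * N) => (if z ⟨ν, hν⟩ = y ⟨ν, hν⟩ then (1 : K) else 0)) else 1) = _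
    rw [dif_pos hν]
  have hind : ind K (gic N u) y = ((inc N N u.1.1 u.2.1).map fun e => P e.1).prod := by
    rw [← Ba_prod u P]
    funext z
    rw [Finset.prod_apply]
    unfold ind
    refine prod_congr rfl fun γ _ => ?_
    rw [hPe γ.1 γ.2]
  set l : List (Pt (2 * N * N) → K) := (inc N N u.1.1 u.2.1).map fun e => P e.1 with hl
  have hll : l.length = (inc N N u.1.1 u.2.1).length := by rw [hl, List.length_map]
  have hlD : ∀ Q ∈ l, Q ∈ Dg K (2 * N * N) 1 := by
    intro Q hQ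
    rw [hl, List.mem_map] at hQ
    obtain ⟨e, he', rfl⟩ := hQ
    rw [hPe e.1 (hlt e he')]
    exact (Ba_lit g0 _ _).1
  obtain ⟨hD, hact⟩ := Ba_hact_list g0 l hlD
  have hl4 : l.length ≤ 4 := by rw [hll]; exact Ba_len N _ _
  rw [hind, g0.hact_up' hD hl4, hact, hl, List.map_map]
  have hmap : ((inc N N u.1.1 u.2.1).map ((fun Q => g0.hact 1 Q) ∘ fun e => P e.1)) =
      A.map fun z => OE g.J x m n N (fun _ _ => (0 : ZMod 0)) (fun _ _ => (0 : ZMod 0)) 1 z.1 (z.2.2 : ZMod 0) := by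
    rw [hA, List.map_map]
    refine List.map_congr_left fun e he' => ?_
    show g0.hact 1 (P e.1) = OE g.J x m n N (fun _ _ => (0 : ZMod 0)) (fun _ _ => (0 : ZMod 0)) 1 e.1
      (((if y' e.1 then 1 else 0 : ℕ)) : ZMod 0)
    rw [hPe e.1 (hlt e he'), (Ba_lit g0 _ _).2, ← hyy ⟨e.1, hlt e he'⟩]
    have hX : g0.X ⟨e.1, hlt e he'⟩ = YE x m n N e.1 := rfl
    have hJ : g0.J = g.J := rfl
    rw [hX, hJ]
    exact (Ba_OE 0 (by norm_num) g.J x m n N e.1 (y' e.1)).symm
  rw [hmap, hz, mul_zero]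

end

end PPh
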