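import Pool.Agent.H94.TM.Flow

/-!
Row TM_Mi (project MP_28250c_TM): the flows of a grid minor.
PROOF of `flowmap_ex`. Take B from `GridMinor N G` (N ≥ 1). root u := an element of `B u.1 u.2` (connected sets are nonempty), loc w := the u with w ∈ B u if there is one (unique by disjointness), otherwise (0,0) (choice).
For an edge γ with `gval N γ`: source u = gsrc γ, target u' = gtgt γ (both in range since γ < 2 N N), choose a ∈ B u, b ∈ B u' adjacent; `set_flow` gives f1 in B u from root u to a, f2 in B u' from b to root u'. `φ γ x y := f1 x y + f2 x y + [x = a ∧ y = b] - [x = b ∧ y = a]`;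
for the other γ: φ γ = 0. anti, adj: clear. net at w: `([w = a] - [w = root u]) + ([w = root u'] - [w = b]) + [w = b] - [w = a] = [w = root u'] - [w = root u]` = `∑_u'' [root u'' = w] gsgn u'' γ`
(the sum over u'' of `([gtgt = u''] - [gsrc = u'']) [root u'' = w]`). lc: if φ γ x y ≠ 0 then x ∈ B u or x ∈ B u' (x is an end of f1, f2, or a, b), so loc x = u or u', so γ ∈ gic (loc x).
-/

set_option autoImplicit false
open Finset

namespace PPh

theorem flowmap_ex {v : ℕ} (G : SimpleGraph (Fin v)) {N : ℕ} (hN : 1 ≤ N) (h : GridMinor N G) :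
    ∃ (root : Fin N × Fin N → Fin v) (loc : Fin v → Fin N × Fin N) (φ : Fin (2 * N * N) → Fin v → Fin v → ℤ),
      FlowMap G (gsgn N) (gic N) root loc φ := by
  classical
  obtain ⟨B, hc, hd, hh, hv⟩ := h
  have hNp : 0 < N := hN
  have hex : ∀ u : Fin N × Fin N, ∃ w, w ∈ B u.1.1 u.2.1 := by
    intro u
    obtain ⟨w⟩ := (hc u.1.1 u.1.2 u.2.1 u.2.2).nonempty
    exact ⟨w.1, w.2⟩
  choose root hroot using hex
  have huniq : ∀ (u u' : Fin N × Fin N) (w : Fin v), w ∈ B u.1.1 u.2.1 → w ∈ B u'.1.1 u'.2.1 → u = u' := by
    intro u u' w h1 h2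
    by_contra hne
    have hne' : (u.1.1, u.2.1) ≠ (u'.1.1, u'.2.1) := by
      intro he
      apply hne
      have e := Prod.mk.inj he
      exact Prod.ext (Fin.ext e.1) (Fin.ext e.2)
    exact Set.disjoint_left.mp (hd _ u.1.2 _ u.2.2 _ u'.1.2 _ u'.2.2 hne') h1 h2
  let loc : Fin v → Fin N × Fin N := fun w =>
    if hw : ∃ u : Fin N × Fin N, w ∈ B u.1.1 u.2.1 then hw.choose else (⟨0, hNp⟩, ⟨0, hNp⟩)
  have hloc : ∀ (u : Fin N × Fin N) (w : Fin v), w ∈ B u.1.1 u.2.1 → loc w = u := by
    intro u w hw
    have hw' : ∃ u : Fin N × Fin N, w ∈ B u.1.1 u.2.1 := ⟨u, hw⟩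
    have e : loc w = hw'.choose := dif_pos hw'
    rw [e]
    exact huniq _ _ w hw'.choose_spec hw
  have key : ∀ γ : Fin (2 * N * N), ∃ f : Fin v → Fin v → ℤ, (∀ a b, f b a = -f a b) ∧ (∀ a b, ¬ G.Adj a b → f a b = 0) ∧
      (∀ a b, γ ∉ gic N (loc a) → f a b = 0) ∧ ∀ w, ∑ b, f b w = ∑ u, if root u = w then gsgn N u γ else 0 := by
    intro γ
    by_cases hg : gval N γ.1
    · have hlt : γ.1 / 2 < N * N := by
        have h2 : γ.1 < 2 * (N * N) := by
          have e0 : 2 * N * N = 2 * (N * N) := Nat.mul_assoc 2 N N
          have e1 := γ.2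
          omega
        omega
      have hs1 : γ.1 / 2 / N < N := (Nat.div_lt_iff_lt_mul hNp).mpr hlt
      have hs2 : γ.1 / 2 % N < N := Nat.mod_lt _ hNp
      have hmain : ∃ us ut : Fin N × Fin N, gsrc N γ.1 = (us.1.1, us.2.1) ∧ gtgt N γ.1 = (ut.1.1, ut.2.1) ∧
          ∃ a ∈ B us.1.1 us.2.1, ∃ b ∈ B ut.1.1 ut.2.1, G.Adj a b := by
        by_cases hpar : γ.1 % 2 = 0
        · have hg' : γ.1 / 2 % N + 1 < N := by
            have hg2 := hg
            unfold gval at hg2
            rwa [if_pos hpar] at hg2
          refine ⟨(⟨γ.1 / 2 / N, hs1⟩, ⟨γ.1 / 2 % N, hs2⟩), (⟨γ.1 / 2 / N, hs1⟩, ⟨γ.1 / 2 % N + 1, hg'⟩), rfl, ?_, ?_⟩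
          · unfold gtgt
            rw [if_pos hpar]
          · exact hh _ hs1 _ hg'
        · have hg' : γ.1 / 2 / N + 1 < N := by
            have hg2 := hg
            unfold gval at hg2
            rwa [if_neg hpar] at hg2
          refine ⟨(⟨γ.1 / 2 / N, hs1⟩, ⟨γ.1 / 2 % N, hs2⟩), (⟨γ.1 / 2 / N + 1, hg'⟩, ⟨γ.1 / 2 % N, hs2⟩), rfl, ?_, ?_⟩
          · unfold gtgt
            rw [if_neg hpar]
          · exact hv _ hg' _ hs2
      obtain ⟨us, ut, hsrc, htgt, a, ha, b, hb, hab⟩ := hmain
      obtain ⟨f1, p1, p2, p3⟩ := set_flow G (B us.1.1 us.2.1) (hc _ us.1.2 _ us.2.2) (hroot us) ha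
      obtain ⟨f2, q1, q2, q3⟩ := set_flow G (B ut.1.1 ut.2.1) (hc _ ut.1.2 _ ut.2.2) hb (hroot ut)
      refine ⟨fun x y => f1 x y + f2 x y + (if x = a ∧ y = b then 1 else 0) - (if x = b ∧ y = a then 1 else 0), ?_, ?_, ?_, ?_⟩
      · intro x y
        have e1 : (if y = a ∧ x = b then (1 : ℤ) else 0) = if x = b ∧ y = a then 1 else 0 := by
          simp only [and_comm]
        have e2 : (if y = b ∧ x = a then (1 : ℤ) else 0) = if x = a ∧ y = b then 1 else 0 := by
          simp only [and_comm]
        simp only [p1 x y, q1 x y, e1, e2]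
        ring
      · intro x y hxy
        have n1 : ¬ (x = a ∧ y = b) := fun k => hxy (by rw [k.1, k.2]; exact hab)
        have n2 : ¬ (x = b ∧ y = a) := fun k => hxy (by rw [k.1, k.2]; exact hab.symm)
        have e1 := p2 x y (fun k => hxy k.1)
        have e2 := q2 x y (fun k => hxy k.1)
        simp only [e1, e2, if_neg n1, if_neg n2]
        ring
      · intro x y hxy
        have m1 : x ∉ B us.1.1 us.2.1 := by
          intro hx
          apply hxy
          rw [hloc us x hx]
          unfold gic
          rw [Finset.mem_filter]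
          exact ⟨Finset.mem_univ _, hg, Or.inr hsrc⟩
        have m2 : x ∉ B ut.1.1 ut.2.1 := by
          intro hx
          apply hxy
          rw [hloc ut x hx]
          unfold gic
          rw [Finset.mem_filter]
          exact ⟨Finset.mem_univ _, hg, Or.inl htgt⟩
        have n1 : ¬ (x = a ∧ y = b) := fun k => m1 (by rw [k.1]; exact ha)
        have n2 : ¬ (x = b ∧ y = a) := fun k => m2 (by rw [k.1]; exact hb)
        have e1 := p2 x y (fun k => m1 k.2.1)
        have e2 := q2 x y (fun k => m2 k.2.1)
        simp only [e1, e2, if_neg n1, if_neg n2]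
        ring
      · intro w
        have e1 : ∑ x, (if x = a ∧ w = b then (1 : ℤ) else 0) = if w = b then 1 else 0 := by
          by_cases hx : w = b
          · simp [hx]
          · simp [hx]
        have e2 : ∑ x, (if x = b ∧ w = a then (1 : ℤ) else 0) = if w = a then 1 else 0 := by
          by_cases hx : w = a
          · simp [hx]
          · simp [hx]
        have hL : ∑ x, (f1 x w + f2 x w + (if x = a ∧ w = b then (1 : ℤ) else 0) - (if x = b ∧ w = a then 1 else 0)) =
            (if w = root ut then 1 else 0) - (if w = root us then 1 else 0) := by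
          rw [Finset.sum_sub_distrib, Finset.sum_add_distrib, Finset.sum_add_distrib, p3 w, q3 w, e1, e2]
          ring
        have hR : ∀ u : Fin N × Fin N, (if root u = w then gsgn N u γ else 0) =
            (if u = ut then (if w = root ut then (1 : ℤ) else 0) else 0) - (if u = us then (if w = root us then 1 else 0) else 0) := by
          intro u
          have t1 : (gtgt N γ.1 = (u.1.1, u.2.1)) ↔ u = ut := by
            rw [htgt]
            constructor
            · intro he
              have e := Prod.mk.inj he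
              exact Prod.ext (Fin.ext e.1.symm) (Fin.ext e.2.symm)
            · intro he
              rw [he]
          have t2 : (gsrc N γ.1 = (u.1.1, u.2.1)) ↔ u = us := by
            rw [hsrc]
            constructor
            · intro he
              have e := Prod.mk.inj he
              exact Prod.ext (Fin.ext e.1.symm) (Fin.ext e.2.symm)
            · intro he
              rw [he]
          have g1 : gsgn N u γ = (if u = ut then 1 else 0) - (if u = us then 1 else 0) := by
            unfold gsgn
            rw [if_pos hg]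
            simp only [t1, t2]
          rw [g1]
          by_cases c1 : u = ut
          · by_cases c2 : u = us
            · subst c1
              subst c2
              simp
            · subst c1
              by_cases c3 : root u = w
              · rw [if_pos c3, if_pos rfl, if_neg c2, if_pos rfl, if_pos c3.symm, if_neg c2]
              · rw [if_neg c3, if_pos rfl, if_neg (fun k => c3 k.symm), if_neg c2, sub_zero]
          · by_cases c2 : u = us
            · subst c2
              by_cases c3 : root u = w
              · rw [if_pos c3, if_neg c1, if_pos rfl, if_neg c1, if_pos rfl, if_pos c3.symm]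
              · rw [if_neg c3, if_neg c1, if_pos rfl, if_neg (fun k => c3 k.symm), sub_zero]
            · rw [if_neg c1, if_neg c2, if_neg c1, if_neg c2, sub_zero, ite_self]
        rw [hL, Finset.sum_congr rfl fun u _ => hR u, Finset.sum_sub_distrib, Finset.sum_ite_eq' univ ut, Finset.sum_ite_eq' univ us,
          if_pos (Finset.mem_univ _), if_pos (Finset.mem_univ _)]
    · refine ⟨fun _ _ => 0, fun _ _ => by simp, fun _ _ _ => rfl, fun _ _ _ => rfl, fun w => ?_⟩
      have e : ∀ u : Fin N × Fin N, (if root u = w then gsgn N u γ else 0) = 0 := by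
        intro u
        unfold gsgn
        rw [if_neg hg, ite_self]
      rw [Finset.sum_congr rfl fun u _ => e u]
      simp
  choose φ k1 k2 k3 k4 using key
  exact ⟨root, loc, φ, ⟨fun u => hloc u _ (hroot u), k1, k2, k3, k4⟩⟩

end PPh
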