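import Pool.Agent.H94.TM.VerB

/-!
Row TM_VD (project MP_28250c_TM) (file VerD: tsgb_ver).
Row TM_Ve (project MP_28250c_TM): the Tseitin clauses hold under the substitution `fvar`.
Setting: `M : FlowMod g D sgn ic ch`, `P : FlowMap G sgn ic root loc φ`, `z` antisymmetric with `∑_b z b w = σ w - c * ∑_u [root u = w] ch u`.
PROOFS. `fval_anti`: z and φ are antisymmetric. `fval_dep`: `fval .. a b` depends only on the coordinates in `ic (loc a)` (`P.lc`). `fvar_dep`: for every edge number `e` and every end w of the edge.. precisely for `e = a v + b`, a < b: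
dependence on `ic (loc a)`, and by antisymmetry also on `ic (loc b)`. `fval_net`: `∑_b fval z c φ x b w = ∑_b z b w + c * ∑_γ [x γ] ∑_b φ γ b w = σ w - c ∑_u [root u = w] ch u + c * ∑_γ [x γ] ∑_u [root u = w] sgn u γ`
`= σ w + c * ∑_u [root u = w] (∑_γ [x γ] sgn u γ - ch u)`. `vert_ver`: let A be a list with `A.map (fun y => (y.1, y.2.1)) = einc G w`, `net q A ≠ σ w`. The function `Q := (A.map fun y => fvar K z c φ y.1 y.2.2).prod` depends only on `I := ic (loc w)`
(`dep_list`; the edges in `einc G w` have w as an end). If `Q x ≠ 0` then every value is right: for the entry of the neighbour b (b < w: number b v + w, incoming: `fval b w = value`; w < b: number w v + b, outgoing: `fval w b = value`, so `- value = fval b w`), so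
`net q A = ∑_(b adjacent to w) fval z c φ x b w = ∑_b fval b w` (non-neighbours give 0), hence by `fval_net` `∑_u [root u = w] (..) ≠ 0` after cancelling: so w = root u for some u, which is `loc w` (`P.lroot`), the only one, and `∑_γ [x γ] sgn u γ ≠ ch u` in ℤ; `M.bad` gives
`hact D (ind I x) = 0`. Now `dep_hact` with m = D * A.length (A is not empty: if `einc G w = []` then Q = 1, and the argument shows `hact D (ind I x) = 0` for all x.. in that case use m := D * 0: NOT allowed; so the hypothesis `hdeg : einc G w ≠ []`).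
`tsg_ver`: clauses of `tsg q σ`: `exone`: positive clause: `∑_(s<q) fvar e s = 1` as functions (exactly one value; e = a v + b is an actual edge), so the sum of the operators is `hact D 1 = J^D`; pairs: product of the functions is 0. Vertex clauses: `vert_ver` and `fs_nprod` (all
literals negative, at most `w` of them). The variable `x_(e q + s)` of the module is `fvar e s` = `F (e q + s)`, quotient and remainder by q. `tsgb_ver`: the variable `x_e` is `fvar e 1` (q = 2); the literal `(e, decide (s = 0))` has complement `fvar e s` as functions: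
`1 - fvar e 1 = fvar e 0` (`ZMod 2`).
-/

set_option autoImplicit false
open Finset

namespace PPh

open ACpFrege

private theorem VD_one_sub {K : Type} [Field K] {v n : ℕ} (z : Fin v → Fin v → ZMod 2) (c : ZMod 2) (φ : Fin n → Fin v → Fin v → ℤ) (e : ℕ) :
    (1 : Pt n → K) - fvar K z c φ e 1 = fvar K z c φ e 0 := by
  have h2 : ∀ t : ZMod 2, t = 0 ∨ t = 1 := by decide
  have h01 : (1 : ZMod 2) ≠ 0 := by decide
  funext x
  show (1 : K) - fvar K z c φ e 1 x = fvar K z c φ e 0 x
  unfold fvar
  by_cases h : e / v < v ∧ e % v < v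
  · rw [dif_pos h, dif_pos h]
    rcases h2 (fval z c φ x ⟨e / v, h.1⟩ ⟨e % v, h.2⟩) with h0 | h0
    · rw [h0, if_neg (Ne.symm h01), if_pos rfl, sub_zero]
    · rw [h0, if_pos rfl, if_neg h01, sub_self]
  · rw [dif_neg h, dif_neg h, if_neg h01, if_pos rfl, sub_zero]

private theorem VD_lt {v : ℕ} (G : SimpleGraph (Fin v)) [DecidableRel G.Adj] {w : Fin v} {a : List (ℕ × Bool × ℕ)}
    (ha : (a.map fun x => (x.1, x.2.1)) = einc G w) : ∀ x ∈ a, x.1 < v * v := by
  intro x hx
  have h1 : (x.1, x.2.1) ∈ einc G w := by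
    rw [← ha]
    exact List.mem_map.2 ⟨x, hx, rfl⟩
  obtain ⟨b, b', _, _, h⟩ := (gedg_mem G).1 (einc_gedg G _ h1)
  have hb := b.2
  have hb' := b'.2
  have h' : x.1 = b.1 * v + b'.1 := h
  rw [h']
  calc b.1 * v + b'.1 < b.1 * v + v := Nat.add_lt_add_left hb' _
    _ = (b.1 + 1) * v := by ring
    _ ≤ v * v := Nat.mul_le_mul_right _ hb

theorem tsgb_ver {K : Type} [Field K] {E : Type} [AddCommGroup E] [Module K E] {n v D : ℕ} {G : SimpleGraph (Fin v)}
    {U : Type} [Fintype U] [DecidableEq U] {sgn : U → Fin n → ℤ} {ic : U → Finset (Fin n)} {ch : U → ℤ} {root : U → Fin v} {loc : Fin v → U}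
    {φ : Fin n → Fin v → Fin v → ℤ} {z : Fin v → Fin v → ZMod 2} {c : ZMod 2} {σ : Fin v → ZMod 2} {g : Gm K E n}
    (M : FlowMod g D sgn ic ch) (P : FlowMap G sgn ic root loc φ) [DecidableRel G.Adj]
    (hz : ∀ a b, z b a = -z a b) (hz0 : ∀ a b, ¬ G.Adj a b → z a b = 0)
    (hn : ∀ w, ∑ b, z b w = σ w - c * ∑ u, if root u = w then (ch u : ZMod 2) else 0)
    (hdeg : ∀ w, einc G w ≠ []) {Δ : ℕ} (hΔ : ∀ w, (einc G w).length ≤ Δ) :
    ∀ C ∈ tsgb G σ, (g.fs D (fun e : Fin (v * v) => fvar K z c φ e.1 1) (fun _ => fvar_dg M P _ _)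
      (fun _ => fvar_bv _ _)).Clw Δ C := by
  intro C hC
  unfold tsgb at hC
  rw [List.mem_flatMap] at hC
  obtain ⟨w, _, hC⟩ := hC
  unfold eqb at hC
  rw [List.mem_map] at hC
  obtain ⟨a, ha, rfl⟩ := hC
  rw [List.mem_filter] at ha
  obtain ⟨ha, hne⟩ := ha
  have hne' : net 2 a ≠ σ w := of_decide_eq_true hne
  rw [mem_asg] at ha
  obtain ⟨hmap, hval⟩ := ha
  have hlt := VD_lt G hmap
  have hlen : a.length = (einc G w).length := by
    rw [← hmap, List.length_map]
  have hv : 0 < v * v := Nat.mul_pos (Nat.lt_of_le_of_lt (Nat.zero_le _) w.2) (Nat.lt_of_le_of_lt (Nat.zero_le _) w.2)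
  left
  refine ⟨a.map fun x => ((⟨x.1 % (v * v), Nat.mod_lt _ hv⟩ : Fin (v * v)), decide (x.2.2 = 0)), ?_, ?_, ?_⟩
  · rw [List.length_map, hlen]
    exact hΔ w
  · rw [List.map_map]
    refine List.map_congr_left fun x hx => ?_
    show (x.1, decide (x.2.2 = 0)) = (x.1 % (v * v), decide (x.2.2 = 0))
    rw [Nat.mod_eq_of_lt (hlt x hx)]
  · intro m
    have key : ((a.map fun x => ((⟨x.1 % (v * v), Nat.mod_lt _ hv⟩ : Fin (v * v)), decide (x.2.2 = 0))).map
        fun i => if i.2 then (1 : Pt n → K) - (fun e : Fin (v * v) => fvar K z c φ e.1 1) i.1 else (fun e : Fin (v * v) => fvar K z c φ e.1 1) i.1).prod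
        = (a.map fun y => fvar K z c φ y.1 (y.2.2 : ZMod 2)).prod := by
      rw [List.map_map]
      refine congrArg List.prod (List.map_congr_left fun x hx => ?_)
      show (if decide (x.2.2 = 0) = true then (1 : Pt n → K) - fvar K z c φ (x.1 % (v * v)) 1 else fvar K z c φ (x.1 % (v * v)) 1)
        = fvar K z c φ x.1 (x.2.2 : ZMod 2)
      rw [Nat.mod_eq_of_lt (hlt x hx)]
      have h2 := hval x hx
      by_cases h0 : x.2.2 = 0
      · rw [if_pos (decide_eq_true h0), h0, VD_one_sub, Nat.cast_zero]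
      · have h1 : x.2.2 = 1 := by omega
        rw [if_neg (by simp [h0]), h1, Nat.cast_one]
    rw [fs_nprod, key, List.length_map, vert_ver M P hz hz0 hn a hmap hne' (hdeg w)]
    rfl

end PPh
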