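import Pool.Agent.H94.TM.VerC
import Pool.Agent.H94.TM.VerD
import Pool.Agent.H94.TM.Gra
import Pool.Agent.H94.TM.Base
import Pool.Agent.H94.TM.Min

/-!
Row TM_As (project MP_28250c_TM): graded modules for the Tseitin formulas of connected graphs with a grid minor.
PROOF of `tsg_gm`. E, g from `hgm`, `h := opm_of g hcl`, base module `g0 := gbase h N` (same J and M; `(gbase h N).Op a ≤ g.Op a` by `Gm.sub_Op_le`), `gbase_flow`, `flowmap_ex`. `∑_u chg = n - m` (`chg_total` with c = 1 : ℤ; `Fintype.sum_prod_type`, `Finset.sum_range`), a divisor of the total by `hu`: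
choose c with `c * (n - m) = ∑ σ`. `τ w := σ w - c * ∑_u [root u = w] ch u` has total `∑ σ - c * ∑_u ch u = 0` (`Finset.sum_comm`, `Finset.sum_ite_eq`), so `flow_ex` gives z. Then `hasGmW_fs` (D = 4) with `F := fvar ..` and `tsg_ver`. The numerical conditions are those of `hgm` with 4 L and 4 R.
`einc_ne`: two different vertices exist because N ≥ 3 and root is injective (lroot). `tsgb_gm`: the same with `tsgb_ver`.
-/

set_option autoImplicit false
open Finset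

namespace PPh

open ACpFrege

private theorem As_flow {v : ℕ} (G : SimpleGraph (Fin v)) (hG : G.Connected) {N : ℕ} (hmin : GridMinor N G) {q m n : ℕ}
    (hm1 : 1 ≤ m) (hn1 : 1 ≤ n) (hm : m + 2 ≤ N) (hn : n + 2 ≤ N) (σ : Fin v → ZMod q)
    (hu : ((n : ZMod q) - (m : ZMod q)) ∣ ∑ w, σ w) :
    ∃ (root : Fin N × Fin N → Fin v) (loc : Fin v → Fin N × Fin N) (φ : Fin (2 * N * N) → Fin v → Fin v → ℤ)
      (_ : FlowMap G (gsgn N) (gic N) root loc φ) (z : Fin v → Fin v → ZMod q) (c : ZMod q),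
      (∀ a b, z b a = -z a b) ∧ (∀ a b, ¬ G.Adj a b → z a b = 0) ∧
      ∀ w, ∑ b, z b w = σ w - c * ∑ u, if root u = w then ((chg N N m n (1 : ℤ) u.1.1 u.2.1 : ℤ) : ZMod q) else 0 := by
  obtain ⟨root, loc, φ, P⟩ := flowmap_ex G (by omega) hmin
  obtain ⟨b, hb⟩ := hu
  have htot : ∑ u : Fin N × Fin N, ((chg N N m n (1 : ℤ) u.1.1 u.2.1 : ℤ) : ZMod q) = (n : ZMod q) - (m : ZMod q) := by
    have h1 := chg_total hm hn hm1 hn1 (1 : ℤ)
    have h2 : ∑ u : Fin N × Fin N, chg N N m n (1 : ℤ) u.1.1 u.2.1 = n • (1 : ℤ) - m • (1 : ℤ) := by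
      rw [← h1, Fintype.sum_prod_type, Finset.sum_range]
      exact Finset.sum_congr rfl fun i _ => (Finset.sum_range fun j => chg N N m n (1 : ℤ) i.1 j).symm
    rw [← Int.cast_sum, h2]
    push_cast
    simp
  have h0 : ∑ w, (σ w - b * ∑ u, if root u = w then ((chg N N m n (1 : ℤ) u.1.1 u.2.1 : ℤ) : ZMod q) else 0) = 0 := by
    rw [Finset.sum_sub_distrib, ← Finset.mul_sum, Finset.sum_comm]
    have h3 : ∀ u ∈ (Finset.univ : Finset (Fin N × Fin N)),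
        (∑ w : Fin v, if root u = w then ((chg N N m n (1 : ℤ) u.1.1 u.2.1 : ℤ) : ZMod q) else 0) =
          ((chg N N m n (1 : ℤ) u.1.1 u.2.1 : ℤ) : ZMod q) := fun u _ => by
      rw [Finset.sum_ite_eq, if_pos (Finset.mem_univ _)]
    rw [Finset.sum_congr rfl h3, htot]
    linear_combination hb
  obtain ⟨z, hz1, hz2, hz3⟩ := flow_ex G hG _ h0
  exact ⟨root, loc, φ, P, z, b, hz1, hz2, hz3⟩

private theorem As_ne {v : ℕ} (G : SimpleGraph (Fin v)) [DecidableRel G.Adj] (hG : G.Connected) {N : ℕ} (hN : 2 ≤ N)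
    {sgn : Fin N × Fin N → Fin (2 * N * N) → ℤ} {ic : Fin N × Fin N → Finset (Fin (2 * N * N))}
    {root : Fin N × Fin N → Fin v} {loc : Fin v → Fin N × Fin N} {φ : Fin (2 * N * N) → Fin v → Fin v → ℤ}
    (P : FlowMap G sgn ic root loc φ) (w : Fin v) : einc G w ≠ [] := by
  have h0 : root (⟨0, by omega⟩, ⟨0, by omega⟩) ≠ root (⟨0, by omega⟩, ⟨1, by omega⟩) := by
    intro h
    have h1 := congrArg loc h
    rw [P.lroot, P.lroot] at h1
    have h2 := congrArg (fun u : Fin N × Fin N => u.2.1) h1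
    simp at h2
  exact einc_ne G hG h0 w

theorem tsg_gm {p : ℕ} [Fact p.Prime] {v : ℕ} (G : SimpleGraph (Fin v)) [DecidableRel G.Adj] (hG : G.Connected) {N Δ : ℕ} (hmin : GridMinor N G)
    (hΔ : ∀ w, G.degree w ≤ Δ) (h2 : 2 ≤ Δ) {q m n L A R del : ℕ} (hq : 2 ≤ q)
    (hm1 : 1 ≤ m) (hn1 : 1 ≤ n) (hm : m + 2 ≤ N) (hn : n + 2 ≤ N) {σ : Fin v → ZMod q} (hu : ((n : ZMod q) - (m : ZMod q)) ∣ ∑ w, σ w)
    (hgm : HasGm p (m * n) (ofphp m n) (4 * L) A (4 * R) del) : HasGmW Δ p (v * v * q) (tsg G q σ) L A R del := by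
  obtain ⟨root, loc, φ, P, z, c, hz1, hz2, hz3⟩ := As_flow G hG hmin hm1 hn1 hm hn σ hu
  obtain ⟨E, i1, i2, i3, g, g1, g2, g3, g4, g5⟩ := hgm
  have h := opm_of g g5
  have M := gbase_flow h hm1 hn1 hm hn
  refine hasGmW_fs (D := 4) (by norm_num) (gbase h N) g1 g2 g3
    (fun a ha => (Submodule.finrank_mono (g.sub_Op_le _ _ _ a)).trans (g4 a ha))
    (fun e : Fin (v * v * q) => fvar (ZMod p) z c φ (e.1 / q) ((e.1 % q : ℕ) : ZMod q)) (fun _ => fvar_dg M P _ _)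
    (fun _ => fvar_bv _ _) (tsg G q σ) ?_
  exact tsg_ver M P hq hz1 hz2 hz3 (As_ne G hG (by omega) P) (fun w => (einc_len G w).le.trans (hΔ w)) h2

theorem tsgb_gm {p : ℕ} [Fact p.Prime] {v : ℕ} (G : SimpleGraph (Fin v)) [DecidableRel G.Adj] (hG : G.Connected) {N Δ : ℕ} (hmin : GridMinor N G)
    (hΔ : ∀ w, G.degree w ≤ Δ) {m n L A R del : ℕ}
    (hm1 : 1 ≤ m) (hn1 : 1 ≤ n) (hm : m + 2 ≤ N) (hn : n + 2 ≤ N) {σ : Fin v → ZMod 2} (hu : ((n : ZMod 2) - (m : ZMod 2)) ∣ ∑ w, σ w)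
    (hgm : HasGm p (m * n) (ofphp m n) (4 * L) A (4 * R) del) : HasGmW Δ p (v * v) (tsgb G σ) L A R del := by
  obtain ⟨root, loc, φ, P, z, c, hz1, hz2, hz3⟩ := As_flow G hG hmin hm1 hn1 hm hn σ hu
  obtain ⟨E, i1, i2, i3, g, g1, g2, g3, g4, g5⟩ := hgm
  have h := opm_of g g5
  have M := gbase_flow h hm1 hn1 hm hn
  refine hasGmW_fs (D := 4) (by norm_num) (gbase h N) g1 g2 g3
    (fun a ha => (Submodule.finrank_mono (g.sub_Op_le _ _ _ a)).trans (g4 a ha))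
    (fun e : Fin (v * v) => fvar (ZMod p) z c φ e.1 1) (fun _ => fvar_dg M P _ _)
    (fun _ => fvar_bv _ _) (tsgb G σ) ?_
  exact tsgb_ver M P hz1 hz2 hz3 (As_ne G hG (by omega) P) (fun w => (einc_len G w).le.trans (hΔ w))

end PPh
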