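import Pool.Agent.H94.TM.Defs

/-!
Row TM_Fl (project MP_28250c_TM): flows in graphs.
PROOFS. `path_flow`: induction on the reachability (`SimpleGraph.Walk` r w, or `Relation.ReflTransGen` of Adj: `SimpleGraph.reachable_iff_reflTransGen`): r = w: f = 0. Step w -> w' (adjacent): f' a b = f a b + [a = w ∧ b = w'] - [a = w' ∧ b = w]; the net
inflow changes by `[x = w'] - [x = w]`. `flow_ex`: choose r0 (the sum over an empty type: v = 0 trivial), path flows `f w` from r0 to w, `z a b := ∑ w, (f w a b) • τ w`; net at x = `∑ w ([x = w] - [x = r0]) • τ w = τ x - [x = r0] • ∑ τ = τ x`.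
`set_flow`: let `G_B` be the graph with `Adj a b := a ∈ B ∧ b ∈ B ∧ G.Adj a b`; two elements of B are reachable in `G.induce B` (`SimpleGraph.Connected.preconnected`), so reachable in `G_B` (map the walk by the homomorphism
`G.induce B →g G_B`, `SimpleGraph.Reachable.map`), then `path_flow` for `G_B`.
-/

set_option autoImplicit false
open Finset

namespace PPh

theorem path_flow {v : ℕ} (G : SimpleGraph (Fin v)) {r w : Fin v} (h : G.Reachable r w) :
    ∃ f : Fin v → Fin v → ℤ, (∀ a b, f b a = -f a b) ∧ (∀ a b, ¬ G.Adj a b → f a b = 0) ∧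
      ∀ x, ∑ b, f b x = (if x = w then 1 else 0) - (if x = r then 1 else 0) := by
  obtain ⟨p⟩ := h
  induction p with
  | nil => exact ⟨fun _ _ => 0, fun _ _ => by simp, fun _ _ _ => rfl, fun x => by simp⟩
  | @cons u v' w' hadj p ih =>
    obtain ⟨f, h1, h2, h3⟩ := ih
    refine ⟨fun a b => f a b + (if a = u ∧ b = v' then 1 else 0) - (if a = v' ∧ b = u then 1 else 0), ?_, ?_, ?_⟩
    · intro a b
      have e1 : (if b = u ∧ a = v' then (1 : ℤ) else 0) = if a = v' ∧ b = u then 1 else 0 := by
        simp only [and_comm]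
      have e2 : (if b = v' ∧ a = u then (1 : ℤ) else 0) = if a = u ∧ b = v' then 1 else 0 := by
        simp only [and_comm]
      simp only [h1 a b, e1, e2]
      ring
    · intro a b hab
      have n1 : ¬ (a = u ∧ b = v') := fun hh => hab (by rw [hh.1, hh.2]; exact hadj)
      have n2 : ¬ (a = v' ∧ b = u) := fun hh => hab (by rw [hh.1, hh.2]; exact hadj.symm)
      simp only [h2 a b hab, if_neg n1, if_neg n2]
      ring
    · intro x
      have e1 : ∑ b, (if b = u ∧ x = v' then (1 : ℤ) else 0) = if x = v' then 1 else 0 := by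
        by_cases hx : x = v'
        · simp [hx]
        · simp [hx]
      have e2 : ∑ b, (if b = v' ∧ x = u then (1 : ℤ) else 0) = if x = u then 1 else 0 := by
        by_cases hx : x = u
        · simp [hx]
        · simp [hx]
      rw [Finset.sum_sub_distrib, Finset.sum_add_distrib, h3 x, e1, e2]
      ring

theorem flow_ex {v : ℕ} (G : SimpleGraph (Fin v)) (hG : G.Connected) {A : Type} [AddCommGroup A] (τ : Fin v → A) (h0 : ∑ w, τ w = 0) :
    ∃ z : Fin v → Fin v → A, (∀ a b, z b a = -z a b) ∧ (∀ a b, ¬ G.Adj a b → z a b = 0) ∧ ∀ x, ∑ b, z b x = τ x := by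
  classical
  obtain ⟨r⟩ := hG.nonempty
  choose f h1 h2 h3 using fun w => path_flow G (hG.preconnected r w)
  refine ⟨fun a b => ∑ w, f w a b • τ w, ?_, ?_, ?_⟩
  · intro a b
    simp only [h1 _ a b, neg_smul, Finset.sum_neg_distrib]
  · intro a b hab
    simp only [h2 _ a b hab, zero_smul, Finset.sum_const_zero]
  · intro x
    rw [Finset.sum_comm]
    simp only [← Finset.sum_smul, h3, sub_smul, Finset.sum_sub_distrib]
    rw [← Finset.smul_sum, h0, smul_zero, sub_zero]
    simp [ite_smul]

theorem set_flow {v : ℕ} (G : SimpleGraph (Fin v)) (B : Set (Fin v)) (hB : (G.induce B).Connected) {r w : Fin v} (hr : r ∈ B) (hw : w ∈ B) :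
    ∃ f : Fin v → Fin v → ℤ, (∀ a b, f b a = -f a b) ∧ (∀ a b, ¬ (G.Adj a b ∧ a ∈ B ∧ b ∈ B) → f a b = 0) ∧
      ∀ x, ∑ b, f b x = (if x = w then 1 else 0) - (if x = r then 1 else 0) := by
  classical
  let GB : SimpleGraph (Fin v) :=
    { Adj := fun a b => G.Adj a b ∧ a ∈ B ∧ b ∈ B
      symm := ⟨fun a b hab => ⟨hab.1.symm, hab.2.2, hab.2.1⟩⟩
      loopless := ⟨fun a ha => G.loopless.irrefl a ha.1⟩ }
  have hreach : GB.Reachable r w := by
    have h1 := hB.preconnected ⟨r, hr⟩ ⟨w, hw⟩
    let φ : G.induce B →g GB :=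
      { toFun := fun x => x.1
        map_rel' := fun {a b} hab => ⟨hab, a.2, b.2⟩ }
    exact h1.map φ
  exact path_flow GB hreach

end PPh
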