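import Pool.Agent.H94.TM.Defs
import Pool.Agent.H85.PC.Sub
import Pool.Agent.H94.PP.Vm

/-!
Row TM_Fs (project MP_28250c_TM): local substitutions in graded modules. API: Pool/Agent/H56/PP/GmAct.lean (`hact_mul`, `hact_up'`, `hact_one`, `hact_sub`, `hact_Op`, `hact_map`, `J_pow_mem`, `Op_map`), helper85's
`Gm.Op_mul`, `Gm.Op_pow`, `Gm.sub` (H85/PC/Sub.lean; `Gm.fs` is the same with another J and M), `Gm.nprod`, `Clw` (H85/PC/Defs.lean), `rank_ker` (H94/PP/Vm.lean).
PROOFS. `fs`: `X v * X v = hact (D+D) (F v * F v) = hact (D+D) (F v) = J^D * hact D (F v)` (`hact_mul`, Boolean values: `F v * F v = F v`, `hact_up`). `fs_nprod`: induction on l: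
`g.J^D - hact D F = hact D 1 - hact D F = hact D (1 - F)` (`hact_one`, `hact_sub`), then `hact_mul` (the product of the rest is in `Dg (D * l.length)`). `fs_Op`: generators: `(J^D)^(a - |S|) * XS'` with `XS'` a product
of |S| operators `hact D (F v) ∈ g.Op D`: `Op_mul`; `(J^D)^k = J^(D k) ∈ Op (D k)`. `ker_pow`: by induction on k: `dim (M i ⊓ ker J^(k+1)) ≤ dim (M i ⊓ ker J^k) + dim (M (i+k) ⊓ ker J)`: apply `rank_ker` to `J^k` on the subspace
`W := M i ⊓ ker J^(k+1)`: `dim (W.map J^k) + dim (W ⊓ ker J^k) = dim W`, `W.map J^k ≤ M (i+k) ⊓ ker J`, `W ⊓ ker J^k ≤ M i ⊓ ker J^k`. `hasGmW_fs`: third condition: `R * dim (M (D j) ⊓ ker J^D) ≤ R * ∑_(k<D) dim (M (D j + k) ⊓ ker J)` and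
`D * R * dim (..) ≤ dim M 0` for every k < D (D j + k < D L), sum over k: `D * (R * ∑) ≤ D * dim M 0`, cancel D. First: `16 * (D*L)^2 * del^2 < dim M 0` gives it for L (D ≥ 1).
-/

set_option autoImplicit false
open Finset

namespace PPh

open ACpFrege

section
variable {K : Type} [Field K] {E : Type} [AddCommGroup E] [Module K E] {n : ℕ}

/-- The graded module with `D`-fold degrees in which the variable `v` is the Boolean-valued function `F v` of degree at most `D`. -/
noncomputable def Gm.fs (g : Gm K E n) (D : ℕ) {n' : ℕ} (F : Fin n' → Pt n → K) (hF : ∀ v, F v ∈ Dg K n D) (hB : ∀ v, Bv (F v)) :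
    Gm K E n' where
  J := g.J ^ D
  X := fun v => g.hact D (F v)
  M := fun j => g.M (D * j)
  mapJ := fun j m hm => by
    have h := g.J_pow_mem hm D
    rwa [← Nat.mul_succ] at h
  mapX := fun v j m hm => by
    have h := g.hact_map (a := D) (F v) hm
    rwa [← Nat.mul_succ] at h
  commJ := fun v m => by
    have h := g.hact_comm (Dg_one (K := K) (n := n) D) (hF v)
    rw [g.hact_one] at h
    exact LinearMap.congr_fun h m
  comm := fun v v' m => by
    have h := g.hact_comm (hF v) (hF v')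
    exact LinearMap.congr_fun h m
  idem := fun v m => by
    have h1 : F v * F v = F v := by
      funext x
      rcases hB v x with h | h <;> simp [h]
    have h2 := g.hact_mul (hF v) (hF v)
    rw [h1, g.hact_up (hF v) D] at h2
    exact (LinearMap.congr_fun h2 m).symm

theorem fs_nprod (g : Gm K E n) (D : ℕ) {n' : ℕ} (F : Fin n' → Pt n → K) (hF : ∀ v, F v ∈ Dg K n D) (hB : ∀ v, Bv (F v))
    (l : List (Fin n' × Bool)) :
    (g.fs D F hF hB).nprod l = g.hact (D * l.length) ((l.map fun i => if i.2 then 1 - F i.1 else F i.1).prod) := by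
  have hm : ∀ i : Fin n' × Bool, (if i.2 then 1 - F i.1 else F i.1) ∈ Dg K n D := by
    intro i
    split_ifs
    · exact Submodule.sub_mem _ (Dg_one _) (hF _)
    · exact hF _
  have hp : ∀ l : List (Fin n' × Bool), ((l.map fun i => if i.2 then 1 - F i.1 else F i.1).prod) ∈ Dg K n (D * l.length) := by
    intro l
    induction l with
    | nil => rw [List.map_nil, List.prod_nil]; exact Dg_one _
    | cons a l ih =>
      rw [List.map_cons, List.prod_cons, List.length_cons, Nat.mul_succ, Nat.add_comm]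
      exact Dg_mul (hm a) ih
  have hh : ∀ i : Fin n' × Bool, (if i.2 then (g.fs D F hF hB).J - (g.fs D F hF hB).X i.1 else (g.fs D F hF hB).X i.1) =
      g.hact D (if i.2 then 1 - F i.1 else F i.1) := by
    intro i
    split_ifs
    · rw [g.hact_sub, g.hact_one]
      rfl
    · rfl
  unfold Gm.nprod
  induction l with
  | nil => rw [List.map_nil, List.prod_nil, List.map_nil, List.prod_nil, List.length_nil, Nat.mul_zero, g.hact_one, pow_zero]
  | cons a l ih =>
    rw [List.map_cons, List.prod_cons, List.map_cons, List.prod_cons, ih, hh, List.length_cons, Nat.mul_succ, Nat.add_comm,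
      g.hact_mul (hm a) (hp l)]

theorem fs_Op (g : Gm K E n) (D : ℕ) {n' : ℕ} (F : Fin n' → Pt n → K) (hF : ∀ v, F v ∈ Dg K n D) (hB : ∀ v, Bv (F v)) (a : ℕ) :
    (g.fs D F hF hB).Op a ≤ g.Op (D * a) := by
  refine Submodule.span_le.2 ?_
  rintro P ⟨S, hS, rfl⟩
  have h0 : ∀ l : List (Fin n'), (l.map (g.fs D F hF hB).X).prod ∈ g.Op (D * l.length) := by
    intro l
    induction l with
    | nil =>
      have : g.J ^ 0 ∈ g.Op 0 := g.Op_pow 0
      simpa using this
    | cons v l ih =>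
      rw [List.map_cons, List.prod_cons, List.length_cons, Nat.mul_succ, Nat.add_comm]
      exact g.Op_mul (g.hact_Op D (F v)) ih
  have h1 : (g.fs D F hF hB).XS S ∈ g.Op (D * S.card) := by
    have := h0 (S.sort (· ≤ ·))
    rwa [Finset.length_sort] at this
  have h2 : (g.fs D F hF hB).J ^ (a - S.card) ∈ g.Op (D * (a - S.card)) := by
    have h3 : (g.fs D F hF hB).J ^ (a - S.card) = g.J ^ (D * (a - S.card)) := (pow_mul g.J D (a - S.card)).symm
    rw [h3]
    exact g.Op_pow _
  have h4 := g.Op_mul h2 h1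
  rwa [← Nat.mul_add, Nat.sub_add_cancel hS] at h4

theorem ker_pow [FiniteDimensional K E] (g : Gm K E n) (i k : ℕ) :
    Module.finrank K ↥(g.M i ⊓ LinearMap.ker (g.J ^ k)) ≤ ∑ c ∈ range k, Module.finrank K ↥(g.M (i + c) ⊓ LinearMap.ker g.J) := by
  induction k with
  | zero =>
    rw [Finset.range_zero, Finset.sum_empty, pow_zero]
    have h : g.M i ⊓ LinearMap.ker (1 : E →ₗ[K] E) = ⊥ := by
      rw [eq_bot_iff]
      rintro x ⟨_, hx⟩
      exact hx
    rw [h, finrank_bot]
  | succ k ih =>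
    rw [Finset.sum_range_succ]
    have h := rank_ker (g.J ^ k) (g.M i ⊓ LinearMap.ker (g.J ^ (k + 1)))
    have h1 : Module.finrank K ↥((g.M i ⊓ LinearMap.ker (g.J ^ (k + 1))).map (g.J ^ k)) ≤
        Module.finrank K ↥(g.M (i + k) ⊓ LinearMap.ker g.J) := by
      refine Submodule.finrank_mono ?_
      rintro _ ⟨x, ⟨hx, hx'⟩, rfl⟩
      refine ⟨g.J_pow_mem hx k, ?_⟩
      have h8 : (g.J ^ (k + 1)) x = 0 := hx'
      rw [pow_succ', Module.End.mul_apply] at h8
      exact h8
    have h2 : Module.finrank K ↥((g.M i ⊓ LinearMap.ker (g.J ^ (k + 1))) ⊓ LinearMap.ker (g.J ^ k)) ≤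
        Module.finrank K ↥(g.M i ⊓ LinearMap.ker (g.J ^ k)) := by
      refine Submodule.finrank_mono ?_
      rintro x ⟨⟨hx, _⟩, hx'⟩
      exact ⟨hx, hx'⟩
    omega

end

theorem hasGmW_fs {p n n' w D L A R del : ℕ} [Fact p.Prime] (hD : 1 ≤ D) {E : Type} [AddCommGroup E] [Module (ZMod p) E]
    [FiniteDimensional (ZMod p) E] (g : Gm (ZMod p) E n)
    (h1 : 16 * (D * L) ^ 2 * del ^ 2 < Module.finrank (ZMod p) (g.M 0))
    (h2 : ∀ j, j ≤ D * L → Module.finrank (ZMod p) (g.M j) ≤ A * Module.finrank (ZMod p) (g.M 0))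
    (h3 : ∀ j, j < D * L → (D * R) * Module.finrank (ZMod p) ↥(g.M j ⊓ LinearMap.ker g.J) ≤ Module.finrank (ZMod p) (g.M 0))
    (h4 : ∀ a, a ≤ D * L → Module.finrank (ZMod p) (g.Op a) ≤ del)
    (F : Fin n' → Pt n → ZMod p) (hF : ∀ v, F v ∈ Dg (ZMod p) n D) (hB : ∀ v, Bv (F v)) (C : CNF)
    (hC : ∀ c ∈ C, (g.fs D F hF hB).Clw w c) : HasGmW w p n' C L A R del := by
  have h0 : (g.fs D F hF hB).M 0 = g.M 0 := rfl
  refine ⟨E, inferInstance, inferInstance, inferInstance, g.fs D F hF hB, ?_, ?_, ?_, ?_, hC⟩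
  · rw [h0]
    refine lt_of_le_of_lt (Nat.mul_le_mul_right _ (Nat.mul_le_mul_left _ (Nat.pow_le_pow_left ?_ 2))) h1
    exact Nat.le_mul_of_pos_left _ hD
  · intro j hj
    rw [h0]
    exact h2 (D * j) (Nat.mul_le_mul_left _ hj)
  · intro j hj
    rw [h0]
    have h5 := ker_pow g (D * j) D
    have h6 : (g.fs D F hF hB).M j ⊓ LinearMap.ker (g.fs D F hF hB).J = g.M (D * j) ⊓ LinearMap.ker (g.J ^ D) := rfl
    rw [h6]
    have h7 : D * (R * Module.finrank (ZMod p) ↥(g.M (D * j) ⊓ LinearMap.ker (g.J ^ D))) ≤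
        D * Module.finrank (ZMod p) (g.M 0) := by
      calc D * (R * Module.finrank (ZMod p) ↥(g.M (D * j) ⊓ LinearMap.ker (g.J ^ D)))
          ≤ D * (R * ∑ c ∈ range D, Module.finrank (ZMod p) ↥(g.M (D * j + c) ⊓ LinearMap.ker g.J)) :=
            Nat.mul_le_mul_left _ (Nat.mul_le_mul_left _ h5)
        _ = ∑ c ∈ range D, (D * R) * Module.finrank (ZMod p) ↥(g.M (D * j + c) ⊓ LinearMap.ker g.J) := by
            rw [← Nat.mul_assoc, Finset.mul_sum]
        _ ≤ ∑ c ∈ range D, Module.finrank (ZMod p) (g.M 0) := by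
            refine Finset.sum_le_sum fun c hc => h3 (D * j + c) ?_
            rw [Finset.mem_range] at hc
            calc D * j + c < D * j + D := by omega
              _ = D * (j + 1) := by rw [Nat.mul_succ]
              _ ≤ D * L := Nat.mul_le_mul_left _ hj
        _ = D * Module.finrank (ZMod p) (g.M 0) := by
            rw [Finset.sum_const, Finset.card_range, smul_eq_mul]
    exact Nat.le_of_mul_le_mul_left h7 hD
  · intro a ha
    exact (Submodule.finrank_mono (fs_Op g D F hF hB a)).trans (h4 (D * a) (Nat.mul_le_mul_left _ ha))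

end PPh
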