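import Pool.Agent.H94.TM.Defs
import Pool.Agent.H94.TG.Size

/-!
Row TM_Sz (project MP_28250c_TM): sizes of the Tseitin formulas of graphs.
PROOFS as in Pool/Agent/H94/TG/Size.lean: at a vertex at most `q ^ Δ` clauses with at most `Δ` literals (`size` counts clauses and literals): `q ^ Δ * (Δ + 1)`; `(gedg G).length * 2 ≤ Δ v` or simply `(gedg G).length ≤ Δ v`
(the edges a < b at the vertex a are among its neighbours), each edge contributes `exone q`: one clause of q literals and at most q² / 2 clauses of 2 literals: at most `5 * q ^ 2` in all.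
-/

set_option autoImplicit false
open Finset

namespace PPh

open ACpFrege

private theorem TMSz_append (F G : CNF) : CNF.size (F ++ G) = CNF.size F + CNF.size G := by
  unfold CNF.size
  rw [List.map_append, List.sum_append]

private theorem TMSz_flatMap {α : Type} (L : List α) (f : α → CNF) (B : ℕ) (h : ∀ x ∈ L, CNF.size (f x) ≤ B) :
    CNF.size (L.flatMap f) ≤ L.length * B := by
  induction L with
  | nil => simp [CNF.size]
  | cons a L ih =>
    rw [List.flatMap_cons, TMSz_append, List.length_cons]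
    have h1 := h a List.mem_cons_self
    have h2 := ih fun x hx => h x (List.mem_cons_of_mem _ hx)
    calc CNF.size (f a) + CNF.size (L.flatMap f) ≤ B + L.length * B := Nat.add_le_add h1 h2
      _ = (L.length + 1) * B := by ring

private theorem TMSz_len {α β : Type} (L : List α) (f : α → List β) (B : ℕ) (h : ∀ x ∈ L, (f x).length ≤ B) :
    (L.flatMap f).length ≤ L.length * B := by
  induction L with
  | nil => simp
  | cons a L ih =>
    rw [List.flatMap_cons, List.length_append, List.length_cons]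
    have h1 := h a List.mem_cons_self
    have h2 := ih fun x hx => h x (List.mem_cons_of_mem _ hx)
    calc (f a).length + (L.flatMap f).length ≤ B + L.length * B := Nat.add_le_add h1 h2
      _ = (L.length + 1) * B := by ring

private theorem TMSz_lenS (F : CNF) (k b : ℕ) (h : ∀ C ∈ F, C.length ≤ b) (hk : F.length ≤ k) : CNF.size F ≤ k * (1 + b) := by
  refine le_trans ?_ (Nat.mul_le_mul_right _ hk)
  clear hk
  induction F with
  | nil => simp [CNF.size]
  | cons C F ih =>
    have h1 := h C List.mem_cons_self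
    have h2 := ih fun x hx => h x (List.mem_cons_of_mem _ hx)
    have h3 : CNF.size (C :: F) = (1 + C.length) + CNF.size F := by
      unfold CNF.size
      rw [List.map_cons, List.sum_cons]
    rw [h3, List.length_cons]
    calc (1 + C.length) + CNF.size F ≤ (1 + b) + F.length * (1 + b) := by omega
      _ = (F.length + 1) * (1 + b) := by ring

private theorem TMSz_asg (q : ℕ) (l : List (ℕ × Bool)) : (asg q l).length = q ^ l.length := by
  induction l with
  | nil => simp [asg]
  | cons e l ih =>
    unfold asg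
    rw [List.length_flatMap]
    simp only [List.length_map, ih]
    rw [List.map_const', List.sum_replicate, List.length_range, List.length_cons, smul_eq_mul]
    ring

private theorem TMSz_asgl {q : ℕ} {l : List (ℕ × Bool)} {a : List (ℕ × Bool × ℕ)} (h : a ∈ asg q l) : a.length = l.length := by
  have h1 := (mem_asg.1 h).1
  rw [← h1, List.length_map]

private theorem TMSz_exone (q ν : ℕ) : CNF.size (exone q ν) ≤ (1 + q) + 3 * q ^ 2 := by
  unfold exone
  rw [TMSz_append]
  have h1 : CNF.size [(List.range q).map (isv q ν)] = 1 + q := by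
    unfold CNF.size
    simp
  have h2 := TMSz_flatMap (List.range q) (fun c' => (List.range c').map fun c => [nov q ν c, nov q ν c']) (q * 3) (by
    intro c' hc'
    rw [List.mem_range] at hc'
    refine le_trans (TMSz_lenS _ c' 2 ?_ ?_) ?_
    · intro C hC
      rw [List.mem_map] at hC
      obtain ⟨c, _, rfl⟩ := hC
      simp
    · rw [List.length_map, List.length_range]
    · exact Nat.mul_le_mul_right _ hc'.le)
  rw [List.length_range] at h2
  rw [h1]
  have h3 : q * (q * 3) = 3 * q ^ 2 := by ring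
  omega

section

variable {v : ℕ} (G : SimpleGraph (Fin v)) [DecidableRel G.Adj]

private theorem TMSz_deg (w : Fin v) : ((List.finRange v).filter fun b => G.Adj w b).length ≤ G.degree w := by
  rw [← SimpleGraph.card_neighborFinset_eq_degree, ← List.toFinset_card_of_nodup ((List.nodup_finRange v).filter _)]
  apply Finset.card_le_card
  intro b hb
  rw [List.mem_toFinset, List.mem_filter] at hb
  rw [SimpleGraph.mem_neighborFinset]
  simpa using hb.2

private theorem TMSz_einc {Δ : ℕ} (hΔ : ∀ w, G.degree w ≤ Δ) (w : Fin v) : (einc G w).length ≤ Δ := by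
  unfold einc
  rw [List.length_map]
  exact le_trans (TMSz_deg G w) (hΔ w)

private theorem TMSz_gedg {Δ : ℕ} (hΔ : ∀ w, G.degree w ≤ Δ) : (gedg G).length ≤ v * Δ := by
  unfold gedg
  have h := TMSz_len (List.finRange v) (fun a => ((List.finRange v).filter fun b => a < b ∧ G.Adj a b).map fun b => a.1 * v + b.1) Δ (by
    intro a _
    rw [List.length_map]
    refine le_trans ?_ (le_trans (TMSz_deg G a) (hΔ a))
    apply List.Sublist.length_le
    apply List.monotone_filter_right
    intro b hb
    simp only [decide_eq_true_eq] at hb ⊢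
    exact hb.2)
  rwa [List.length_finRange] at h

private theorem TMSz_eqcl {q Δ : ℕ} (hΔ : ∀ w, G.degree w ≤ Δ) {w : Fin v} {s : ZMod q} {C : List Lit} (h : C ∈ eqc q (einc G w) s) :
    C.length ≤ Δ := by
  unfold eqc at h
  rw [List.mem_map] at h
  obtain ⟨a, ha, rfl⟩ := h
  rw [List.mem_filter] at ha
  rw [List.length_map, TMSz_asgl ha.1]
  exact TMSz_einc G hΔ w

private theorem TMSz_eqbl {Δ : ℕ} (hΔ : ∀ w, G.degree w ≤ Δ) {w : Fin v} {s : ZMod 2} {C : List Lit} (h : C ∈ eqb (einc G w) s) :
    C.length ≤ Δ := by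
  unfold eqb at h
  rw [List.mem_map] at h
  obtain ⟨a, ha, rfl⟩ := h
  rw [List.mem_filter] at ha
  rw [List.length_map, TMSz_asgl ha.1]
  exact TMSz_einc G hΔ w

private theorem TMSz_pow {q Δ : ℕ} (hq : 1 ≤ q) (hΔ : ∀ w, G.degree w ≤ Δ) (w : Fin v) : (asg q (einc G w)).length ≤ q ^ Δ := by
  rw [TMSz_asg]
  exact Nat.pow_le_pow_right hq (TMSz_einc G hΔ w)

private theorem TMSz_eqc {q Δ : ℕ} (hq : 1 ≤ q) (hΔ : ∀ w, G.degree w ≤ Δ) (w : Fin v) (s : ZMod q) :
    CNF.size (eqc q (einc G w) s) ≤ q ^ Δ * (1 + Δ) :=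
  TMSz_lenS (eqc q (einc G w) s) (q ^ Δ) Δ (fun _ hC => TMSz_eqcl G hΔ hC) (by
    unfold eqc
    rw [List.length_map]
    exact le_trans (List.length_filter_le _ _) (TMSz_pow G hq hΔ w))

private theorem TMSz_eqb {Δ : ℕ} (hΔ : ∀ w, G.degree w ≤ Δ) (w : Fin v) (s : ZMod 2) :
    CNF.size (eqb (einc G w) s) ≤ 2 ^ Δ * (1 + Δ) :=
  TMSz_lenS (eqb (einc G w) s) (2 ^ Δ) Δ (fun _ hC => TMSz_eqbl G hΔ hC) (by
    unfold eqb
    rw [List.length_map]
    exact le_trans (List.length_filter_le _ _) (TMSz_pow G (by norm_num) hΔ w))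

theorem tsg_size {q Δ : ℕ} (hq : 1 ≤ q) (hΔ : ∀ w, G.degree w ≤ Δ) (σ : Fin v → ZMod q) :
    (tsg G q σ).size ≤ (Δ + 1) * (q ^ Δ + 5 * q ^ 2) * v ∧ ∀ C ∈ tsg G q σ, C.length ≤ max q (max 2 Δ) := by
  constructor
  · unfold tsg
    rw [TMSz_append]
    have hq2 : q ≤ q ^ 2 := by nlinarith
    have hq1 : 1 ≤ q ^ 2 := le_trans hq hq2
    have h1 := TMSz_flatMap (gedg G) (exone q) (5 * q ^ 2) (fun x _ => by
      have := TMSz_exone q x
      omega)
    have h2 := TMSz_flatMap (List.finRange v) (fun w => eqc q (einc G w) (σ w)) (q ^ Δ * (1 + Δ)) (fun w _ => TMSz_eqc G hq hΔ w _)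
    rw [List.length_finRange] at h2
    have h3 : (gedg G).length * (5 * q ^ 2) ≤ v * Δ * (5 * q ^ 2) := Nat.mul_le_mul_right _ (TMSz_gedg G hΔ)
    calc CNF.size ((gedg G).flatMap (exone q)) + CNF.size ((List.finRange v).flatMap fun w => eqc q (einc G w) (σ w))
        ≤ v * Δ * (5 * q ^ 2) + v * (q ^ Δ * (1 + Δ)) := Nat.add_le_add (le_trans h1 h3) h2
      _ ≤ v * Δ * (5 * q ^ 2) + v * (q ^ Δ * (1 + Δ)) + v * (5 * q ^ 2) := Nat.le_add_right _ _
      _ = (Δ + 1) * (q ^ Δ + 5 * q ^ 2) * v := by ring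
  · intro C hC
    unfold tsg at hC
    rw [List.mem_append] at hC
    rcases hC with hC | hC
    · rw [List.mem_flatMap] at hC
      obtain ⟨e, he, hC⟩ := hC
      unfold exone at hC
      rw [List.mem_append] at hC
      rcases hC with hC | hC
      · rw [List.mem_singleton] at hC
        subst hC
        rw [List.length_map, List.length_range]
        exact le_max_left _ _
      · rw [List.mem_flatMap] at hC
        obtain ⟨c', hc', hC⟩ := hC
        rw [List.mem_map] at hC
        obtain ⟨c, hc, rfl⟩ := hC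
        exact le_trans (by simp) (le_trans (le_max_left 2 Δ) (le_max_right _ _))
    · rw [List.mem_flatMap] at hC
      obtain ⟨w, hw, hC⟩ := hC
      exact le_trans (TMSz_eqcl G hΔ hC) (le_trans (le_max_right 2 Δ) (le_max_right _ _))

theorem tsgb_size {Δ : ℕ} (hΔ : ∀ w, G.degree w ≤ Δ) (σ : Fin v → ZMod 2) :
    (tsgb G σ).size ≤ (Δ + 1) * 2 ^ Δ * v ∧ ∀ C ∈ tsgb G σ, C.length ≤ Δ := by
  constructor
  · unfold tsgb
    have h2 := TMSz_flatMap (List.finRange v) (fun w => eqb (einc G w) (σ w)) (2 ^ Δ * (1 + Δ)) (fun w _ => TMSz_eqb G hΔ w _)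
    rw [List.length_finRange] at h2
    calc CNF.size ((List.finRange v).flatMap fun w => eqb (einc G w) (σ w)) ≤ v * (2 ^ Δ * (1 + Δ)) := h2
      _ = (Δ + 1) * 2 ^ Δ * v := by ring
  · intro C hC
    unfold tsgb at hC
    rw [List.mem_flatMap] at hC
    obtain ⟨w, hw, hC⟩ := hC
    exact TMSz_eqbl G hΔ hC

end

end PPh
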