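import Pool.Agent.H94.TM.Fs
import Pool.Agent.H94.TM.Dep
import Pool.Agent.H94.TG.Net

/-!
Row TM_VA (file VerA: fval_anti .. fvar_dg) (project MP_28250c_TM).
Row TM_Ve (project MP_28250c_TM): the Tseitin clauses hold under the substitution `fvar`.
Setting: `M : FlowMod g D sgn ic ch`, `P : FlowMap G sgn ic root loc φ`, `z` antisymmetric with `∑_b z b w = σ w - c * ∑_u [root u = w] ch u`.
PROOFS. `fval_anti`: z and φ are antisymmetric. `fval_dep`: `fval .. a b` depends only on the coordinates in `ic (loc a)` (`P.lc`). `fvar_dep`: for every edge number `e` and every end w of the edge.. precisely for `e = a v + b`, a < b: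
dependence on `ic (loc a)`, and by antisymmetry also on `ic (loc b)`. `fval_net`: `∑_b fval z c φ x b w = ∑_b z b w + c * ∑_γ [x γ] ∑_b φ γ b w = σ w - c ∑_u [root u = w] ch u + c * ∑_γ [x γ] ∑_u [root u = w] sgn u γ`
`= σ w + c * ∑_u [root u = w] (∑_γ [x γ] sgn u γ - ch u)`. `vert_ver`: let A be a list with `A.map (fun y => (y.1, y.2.1)) = einc G w`, `net q A ≠ σ w`. The function `Q := (A.map fun y => fvar K z c φ y.1 y.2.2).prod` depends only on `I := ic (loc w)`
(`dep_list`; the edges in `einc G w` have w as an end). If `Q x ≠ 0` then every value is right: for the entry of the neighbour b (b < w: number b v + w, incoming: `fval b w = value`; w < b: number w v + b, outgoing: `fval w b = value`, so `- value = fval b w`), so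
`net q A = ∑_(b adjacent to w) fval z c φ x b w = ∑_b fval b w` (non-neighbours give 0), hence by `fval_net` `∑_u [root u = w] (..) ≠ 0` after cancelling: so w = root u for some u, which is `loc w` (`P.lroot`), the only one, and `∑_γ [x γ] sgn u γ ≠ ch u` in ℤ; `M.bad` gives
`hact D (ind I x) = 0`. Now `dep_hact` with m = D * A.length (A is not empty: if `einc G w = []` then Q = 1, and the argument shows `hact D (ind I x) = 0` for all x.. in that case use m := D * 0: NOT allowed; so the hypothesis `hdeg : einc G w ≠ []`).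
`tsg_ver`: clauses of `tsg q σ`: `exone`: positive clause: `∑_(s<q) fvar e s = 1` as functions (exactly one value; e = a v + b is an actual edge), so the sum of the operators is `hact D 1 = J^D`; pairs: product of the functions is 0. Vertex clauses: `vert_ver` and `fs_nprod` (all
literals negative, at most `w` of them). The variable `x_(e q + s)` of the module is `fvar e s` = `F (e q + s)`, quotient and remainder by q. `tsgb_ver`: the variable `x_e` is `fvar e 1` (q = 2); the literal `(e, decide (s = 0))` has complement `fvar e s` as functions: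
`1 - fvar e 1 = fvar e 0` (`ZMod 2`).
-/

set_option autoImplicit false
open Finset

namespace PPh

open ACpFrege

section
variable {K : Type} [Field K] {E : Type} [AddCommGroup E] [Module K E] {n v D : ℕ} {G : SimpleGraph (Fin v)}
  {U : Type} [Fintype U] [DecidableEq U] {sgn : U → Fin n → ℤ} {ic : U → Finset (Fin n)} {ch : U → ℤ} {root : U → Fin v} {loc : Fin v → U}
  {φ : Fin n → Fin v → Fin v → ℤ} {q : ℕ} {z : Fin v → Fin v → ZMod q} {c : ZMod q} {σ : Fin v → ZMod q}

theorem fval_anti (P : FlowMap G sgn ic root loc φ) (hz : ∀ a b, z b a = -z a b) (x : Pt n) (a b : Fin v) :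
    fval z c φ x b a = -fval z c φ x a b := by
  unfold fval
  rw [hz a b, neg_add, ← mul_neg, ← Finset.sum_neg_distrib]
  congr 2
  refine Finset.sum_congr rfl fun γ _ => ?_
  rw [P.anti γ a b]
  split_ifs
  · rw [Int.cast_neg]
  · rw [neg_zero]

theorem fval_zero (P : FlowMap G sgn ic root loc φ) (hz : ∀ a b, ¬ G.Adj a b → z a b = 0) (x : Pt n) {a b : Fin v} (h : ¬ G.Adj a b) :
    fval z c φ x a b = 0 := by
  unfold fval
  rw [hz a b h, zero_add]
  rw [Finset.sum_eq_zero, mul_zero]
  intro γ _
  rw [P.adj γ a b h, Int.cast_zero, ite_self]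

theorem fval_dep (P : FlowMap G sgn ic root loc φ) (x y : Pt n) (a b : Fin v) (h : ∀ γ ∈ ic (loc a), x γ = y γ) :
    fval z c φ x a b = fval z c φ y a b := by
  unfold fval
  congr 2
  refine Finset.sum_congr rfl fun γ _ => ?_
  by_cases hγ : γ ∈ ic (loc a)
  · rw [h γ hγ]
  · rw [P.lc γ a b hγ, Int.cast_zero, ite_self, ite_self]

theorem fval_net (P : FlowMap G sgn ic root loc φ)
    (hn : ∀ w, ∑ b, z b w = σ w - c * ∑ u, if root u = w then (ch u : ZMod q) else 0) (x : Pt n) (w : Fin v) :
    ∑ b, fval z c φ x b w = σ w + c * ∑ u, if root u = w then (((∑ γ, if x γ then sgn u γ else 0) - ch u : ℤ) : ZMod q) else 0 := by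
  unfold fval
  rw [Finset.sum_add_distrib, hn w, ← Finset.mul_sum, Finset.sum_comm]
  have h1 : (∑ γ, ∑ b, if x γ then (φ γ b w : ZMod q) else 0) =
      ∑ u, if root u = w then ((∑ γ, if x γ then sgn u γ else 0 : ℤ) : ZMod q) else 0 := by
    have h2 : ∀ γ, (∑ b, if x γ then (φ γ b w : ZMod q) else 0) = ∑ u, if root u = w then ((if x γ then sgn u γ else 0 : ℤ) : ZMod q) else 0 := by
      intro γ
      by_cases hx : x γ = true
      · simp only [hx, if_true]
        rw [← Int.cast_sum, P.net γ w, Int.cast_sum]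
        refine Finset.sum_congr rfl fun u _ => ?_
        split_ifs
        · rfl
        · exact Int.cast_zero
      · simp only [hx, if_false, Finset.sum_const_zero, Int.cast_zero, ite_self, Bool.false_eq_true]
    rw [Finset.sum_congr rfl fun γ _ => h2 γ, Finset.sum_comm]
    refine Finset.sum_congr rfl fun u _ => ?_
    split_ifs
    · rw [Int.cast_sum]
    · exact Finset.sum_const_zero
  rw [h1, sub_add, ← mul_sub, sub_eq_add_neg, ← mul_neg, neg_sub, ← Finset.sum_sub_distrib]
  congr 2
  refine Finset.sum_congr rfl fun u _ => ?_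
  split_ifs
  · rw [Int.cast_sub]
  · rw [sub_zero]

theorem fvar_edge {a b : Fin v} (x : Pt n) (s : ZMod q) : fvar K z c φ (a.1 * v + b.1) s x = if fval z c φ x a b = s then 1 else 0 := by
  have hv : 0 < v := lt_of_le_of_lt (Nat.zero_le _) a.2
  have h1 : (a.1 * v + b.1) / v = a.1 := by
    rw [mul_comm, Nat.mul_add_div hv, Nat.div_eq_of_lt b.2, add_zero]
  have h2 : (a.1 * v + b.1) % v = b.1 := by
    rw [mul_comm, Nat.mul_add_mod, Nat.mod_eq_of_lt b.2]
  have h3 : (a.1 * v + b.1) / v < v ∧ (a.1 * v + b.1) % v < v := by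
    rw [h1, h2]
    exact ⟨a.2, b.2⟩
  have h4 : (⟨(a.1 * v + b.1) / v, h3.1⟩ : Fin v) = a := Fin.ext h1
  have h5 : (⟨(a.1 * v + b.1) % v, h3.2⟩ : Fin v) = b := Fin.ext h2
  unfold fvar
  rw [dif_pos h3, h4, h5]

theorem fvar_bv (e : ℕ) (s : ZMod q) : Bv (fvar K z c φ (n := n) e s) := by
  intro x
  unfold fvar
  split_ifs <;> simp

theorem fvar_dg {g : Gm K E n} (M : FlowMod g D sgn ic ch) (P : FlowMap G sgn ic root loc φ) (e : ℕ) (s : ZMod q) :
    fvar K z c φ e s ∈ Dg K n D := by
  by_cases h : e / v < v ∧ e % v < v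
  · have h1 : Dep (ic (loc ⟨e / v, h.1⟩)) (fvar K z c φ (n := n) e s) := by
      intro x y hxy
      unfold fvar
      rw [dif_pos h, dif_pos h, fval_dep P x y _ _ hxy]
    exact Dg_mono (M.card _) (dep_dg h1)
  · have h1 : fvar K z c φ (n := n) e s = fun _ => if s = 0 then 1 else 0 := by
      funext x
      unfold fvar
      rw [dif_neg h]
    rw [h1]
    exact Dg_const D _


end

end PPh
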