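import Pool.Agent.H94.TM.VerA
import Pool.Agent.H94.TM.Gra

/-!
Row TM_VB (file VerB: vert_ver) (project MP_28250c_TM).
Row TM_Ve (project MP_28250c_TM): the Tseitin clauses hold under the substitution `fvar`.
Setting: `M : FlowMod g D sgn ic ch`, `P : FlowMap G sgn ic root loc φ`, `z` antisymmetric with `∑_b z b w = σ w - c * ∑_u [root u = w] ch u`.
PROOFS. `fval_anti`: z and φ are antisymmetric. `fval_dep`: `fval .. a b` depends only on the coordinates in `ic (loc a)` (`P.lc`). `fvar_dep`: for every edge number `e` and every end w of the edge.. precisely for `e = a v + b`, a < b: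
dependence on `ic (loc a)`, and by antisymmetry also on `ic (loc b)`. `fval_net`: `∑_b fval z c φ x b w = ∑_b z b w + c * ∑_γ [x γ] ∑_b φ γ b w = σ w - c ∑_u [root u = w] ch u + c * ∑_γ [x γ] ∑_u [root u = w] sgn u γ`
`= σ w + c * ∑_u [root u = w] (∑_γ [x γ] sgn u γ - ch u)`. `vert_ver`: let A be a list with `A.map (fun y => (y.1, y.2.1)) = einc G w`, `net q A ≠ σ w`. The function `Q := (A.map fun y => fvar K z c φ y.1 y.2.2).prod` depends only on `I := ic (loc w)`
(`dep_list`; the edges in `einc G w` have w as an end). If `Q x ≠ 0` then every value is right: for the entry of the neighbour b (b < w: number b v + w, incoming: `fval b w = value`; w < b: number w v + b, outgoing: `fval w b = value`, so `- value = fval b w`), so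
`net q A = ∑_(b adjacent to w) fval z c φ x b w = ∑_b fval b w` (non-neighbours give 0), hence by `fval_net` `∑_u [root u = w] (..) ≠ 0` after cancelling: so w = root u for some u, which is `loc w` (`P.lroot`), the only one, and `∑_γ [x γ] sgn u γ ≠ ch u` in ℤ; `M.bad` gives
`hact D (ind I x) = 0`. Now `dep_hact` with m = D * A.length (A is not empty: if `einc G w = []` then Q = 1, and the argument shows `hact D (ind I x) = 0` for all x.. in that case use m := D * 0: NOT allowed; so the hypothesis `hdeg : einc G w ≠ []`).
`tsg_ver`: clauses of `tsg q σ`: `exone`: positive clause: `∑_(s<q) fvar e s = 1` as functions (exactly one value; e = a v + b is an actual edge), so the sum of the operators is `hact D 1 = J^D`; pairs: product of the functions is 0. Vertex clauses: `vert_ver` and `fs_nprod` (all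
literals negative, at most `w` of them). The variable `x_(e q + s)` of the module is `fvar e s` = `F (e q + s)`, quotient and remainder by q. `tsgb_ver`: the variable `x_e` is `fvar e 1` (q = 2); the literal `(e, decide (s = 0))` has complement `fvar e s` as functions:
`1 - fvar e 1 = fvar e 0` (`ZMod 2`).
-/

set_option autoImplicit false
open Finset

namespace PPh

open ACpFrege

section
variable {K : Type} [Field K] {E : Type} [AddCommGroup E] [Module K E] {n v D : ℕ} {G : SimpleGraph (Fin v)}
  {U : Type} [Fintype U] [DecidableEq U] {sgn : U → Fin n → ℤ} {ic : U → Finset (Fin n)} {ch : U → ℤ} {root : U → Fin v} {loc : Fin v → U}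
  {φ : Fin n → Fin v → Fin v → ℤ} {q : ℕ} {z : Fin v → Fin v → ZMod q} {c : ZMod q} {σ : Fin v → ZMod q}

private theorem VB_prod {ι : Type} {n : ℕ} {K : Type} [Field K] (F : ι → Pt n → K) (x : Pt n) :
    ∀ A : List ι, (A.map F).prod x ≠ 0 → ∀ y ∈ A, F y x ≠ 0 := by
  intro A
  induction A with
  | nil => intro _ y hy; simp at hy
  | cons a A ih =>
    intro h y hy
    rw [List.map_cons, List.prod_cons, Pi.mul_apply] at h
    rcases List.mem_cons.1 hy with rfl | hy
    · exact left_ne_zero_of_mul h
    · exact ih (right_ne_zero_of_mul h) y hy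

private theorem VB_sum {β R : Type} [AddCommMonoid R] (e : β → ℕ × Bool) (val : ℕ × Bool × ℕ → R) (f : β → R) :
    ∀ (L : List β) (A : List (ℕ × Bool × ℕ)), (A.map fun y => (y.1, y.2.1)) = L.map e →
      (∀ y ∈ A, ∀ b ∈ L, (y.1, y.2.1) = e b → val y = f b) → (A.map val).sum = (L.map f).sum := by
  intro L
  induction L with
  | nil =>
    intro A h _
    have : A = [] := by simpa using h
    subst this
    rfl
  | cons b L ih =>
    intro A h hg
    cases A with
    | nil => simp at h
    | cons y A =>
      simp only [List.map_cons, List.cons.injEq] at h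
      rw [List.map_cons, List.map_cons, List.sum_cons, List.sum_cons, hg y List.mem_cons_self b List.mem_cons_self h.1,
        ih A h.2 fun y' hy' b' hb' => hg y' (List.mem_cons_of_mem _ hy') b' (List.mem_cons_of_mem _ hb')]

private theorem VB_filter {β R : Type} [AddCommMonoid R] (p : β → Prop) [DecidablePred p] (f : β → R) (hf : ∀ b, ¬ p b → f b = 0) :
    ∀ L : List β, ((L.filter fun b => p b).map f).sum = (L.map f).sum := by
  intro L
  induction L with
  | nil => rfl
  | cons b L ih =>
    by_cases h : p b
    · rw [List.filter_cons_of_pos (by simpa using h), List.map_cons, List.map_cons, List.sum_cons, List.sum_cons, ih]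
    · rw [List.filter_cons_of_neg (by simpa using h), List.map_cons, List.sum_cons, hf b h, zero_add, ih]

theorem vert_ver {g : Gm K E n} (M : FlowMod g D sgn ic ch) (P : FlowMap G sgn ic root loc φ) [DecidableRel G.Adj]
    (hz : ∀ a b, z b a = -z a b) (hz0 : ∀ a b, ¬ G.Adj a b → z a b = 0)
    (hn : ∀ w, ∑ b, z b w = σ w - c * ∑ u, if root u = w then (ch u : ZMod q) else 0) {w : Fin v}
    (A : List (ℕ × Bool × ℕ)) (hA : (A.map fun y => (y.1, y.2.1)) = einc G w) (hne : net q A ≠ σ w) (hdeg : einc G w ≠ []) :
    g.hact (D * A.length) ((A.map fun y => fvar K z c φ y.1 (y.2.2 : ZMod q)).prod) = 0 := by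
  classical
  -- the edges of `A`
  have hmem : ∀ y ∈ A, ∃ b : Fin v, G.Adj w b ∧ (y.1, y.2.1) = (if b < w then (b.1 * v + w.1, true) else (w.1 * v + b.1, false)) := by
    intro y hy
    have h1 : (y.1, y.2.1) ∈ einc G w := by
      rw [← hA]
      exact List.mem_map.2 ⟨y, hy, rfl⟩
    unfold einc at h1
    obtain ⟨b, hb, hb'⟩ := List.mem_map.1 h1
    exact ⟨b, by simpa using (List.mem_filter.1 hb).2, hb'.symm⟩
  have hcard : (ic (loc w)).card ≤ D := M.card _
  have hlen : 1 ≤ A.length := by
    have h1 : A.length = (einc G w).length := by rw [← hA, List.length_map]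
    rw [h1]
    exact List.length_pos_iff.2 hdeg
  -- dependence
  have hdep : Dep (ic (loc w)) ((A.map fun y => fvar K z c φ y.1 (y.2.2 : ZMod q)).prod) := by
    apply dep_list
    intro P' hP'
    obtain ⟨y, hy, rfl⟩ := List.mem_map.1 hP'
    obtain ⟨b, hb, hyb⟩ := hmem y hy
    intro x x' hxx
    have hd : fval z c φ x w b = fval z c φ x' w b := fval_dep P x x' w b hxx
    by_cases hbw : b < w
    · rw [if_pos hbw] at hyb
      have h1 : y.1 = b.1 * v + w.1 := congrArg Prod.fst hyb
      rw [h1, fvar_edge, fvar_edge, fval_anti P hz x w b, fval_anti P hz x' w b, hd]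
    · rw [if_neg hbw] at hyb
      have h1 : y.1 = w.1 * v + b.1 := congrArg Prod.fst hyb
      rw [h1, fvar_edge, fvar_edge, hd]
  refine dep_hact g hcard (Nat.le_mul_of_pos_right D hlen) hdep ?_
  intro x hx
  have hfac := VB_prod (fun y : ℕ × Bool × ℕ => fvar K z c φ y.1 (y.2.2 : ZMod q)) x A hx
  -- the net value
  have hnet : net q A = ∑ b, fval z c φ x b w := by
    have h1 : net q A = ((((List.finRange v).filter fun b => G.Adj w b)).map fun b => fval z c φ x b w).sum := by
      unfold net
      refine VB_sum (fun b : Fin v => if b < w then (b.1 * v + w.1, true) else (w.1 * v + b.1, false)) _ _ _ A ?_ ?_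
      · rw [hA]
        rfl
      · intro y hy b hb hyb
        have h2 := hfac y hy
        by_cases hbw : b < w
        · simp only [if_pos hbw] at hyb
          have h3 : y.1 = b.1 * v + w.1 := congrArg Prod.fst hyb
          have h4 : y.2.1 = true := congrArg Prod.snd hyb
          simp only [h3] at h2
          rw [fvar_edge] at h2
          rw [if_pos h4]
          by_contra h5
          exact h2 (if_neg fun h6 => h5 h6.symm)
        · simp only [if_neg hbw] at hyb
          have h3 : y.1 = w.1 * v + b.1 := congrArg Prod.fst hyb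
          have h4 : y.2.1 = false := congrArg Prod.snd hyb
          simp only [h3] at h2
          rw [fvar_edge] at h2
          rw [if_neg (by rw [h4]; simp), fval_anti P hz x w b]
          by_contra h5
          exact h2 (if_neg fun h6 => h5 (by rw [h6]))
    rw [h1, VB_filter (fun b => G.Adj w b) (fun b => fval z c φ x b w), Fin.sum_univ_def]
    intro b hb
    exact fval_zero P hz0 x fun h => hb h.symm
  rw [fval_net P hn x w] at hnet
  -- the vertex
  have hex : ∃ u, root u = w ∧ ((∑ γ, if x γ then sgn u γ else 0) - ch u) ≠ 0 := by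
    by_contra hcon
    push Not at hcon
    apply hne
    rw [hnet]
    have h0 : ∑ u, (if root u = w then (((∑ γ, if x γ then sgn u γ else 0) - ch u : ℤ) : ZMod q) else 0) = 0 := by
      refine Finset.sum_eq_zero fun u _ => ?_
      by_cases hu : root u = w
      · rw [if_pos hu, hcon u hu, Int.cast_zero]
      · rw [if_neg hu]
    rw [h0, mul_zero, add_zero]
  obtain ⟨u, hu, hu'⟩ := hex
  have hloc : loc w = u := by rw [← hu]; exact P.lroot u
  rw [hloc]
  exact M.bad u x fun h => hu' (by rw [h, sub_self])


end

end PPh
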