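import Pool.Agent.H94.TM.VerB

/-!
Row TM_VC (file VerC: tsg_ver) (project MP_28250c_TM).
Row TM_Ve (project MP_28250c_TM): the Tseitin clauses hold under the substitution `fvar`.
Setting: `M : FlowMod g D sgn ic ch`, `P : FlowMap G sgn ic root loc φ`, `z` antisymmetric with `∑_b z b w = σ w - c * ∑_u [root u = w] ch u`.
PROOFS. `fval_anti`: z and φ are antisymmetric. `fval_dep`: `fval .. a b` depends only on the coordinates in `ic (loc a)` (`P.lc`). `fvar_dep`: for every edge number `e` and every end w of the edge.. precisely for `e = a v + b`, a < b: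
dependence on `ic (loc a)`, and by antisymmetry also on `ic (loc b)`. `fval_net`: `∑_b fval z c φ x b w = ∑_b z b w + c * ∑_γ [x γ] ∑_b φ γ b w = σ w - c ∑_u [root u = w] ch u + c * ∑_γ [x γ] ∑_u [root u = w] sgn u γ`
`= σ w + c * ∑_u [root u = w] (∑_γ [x γ] sgn u γ - ch u)`. `vert_ver`: let A be a list with `A.map (fun y => (y.1, y.2.1)) = einc G w`, `net q A ≠ σ w`. The function `Q := (A.map fun y => fvar K z c φ y.1 y.2.2).prod` depends only on `I := ic (loc w)`
(`dep_list`; the edges in `einc G w` have w as an end). If `Q x ≠ 0` then every value is right: for the entry of the neighbour b (b < w: number b v + w, incoming: `fval b w = value`; w < b: number w v + b, outgoing: `fval w b = value`, so `- value = fval b w`), so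
`net q A = ∑_(b adjacent to w) fval z c φ x b w = ∑_b fval b w` (non-neighbours give 0), hence by `fval_net` `∑_u [root u = w] (..) ≠ 0` after cancelling: so w = root u for some u, which is `loc w` (`P.lroot`), the only one, and `∑_γ [x γ] sgn u γ ≠ ch u` in ℤ; `M.bad` gives
`hact D (ind I x) = 0`. Now `dep_hact` with m = D * A.length (A is not empty: if `einc G w = []` then Q = 1, and the argument shows `hact D (ind I x) = 0` for all x.. in that case use m := D * 0: NOT allowed; so the hypothesis `hdeg : einc G w ≠ []`).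
`tsg_ver`: clauses of `tsg q σ`: `exone`: positive clause: `∑_(s<q) fvar e s = 1` as functions (exactly one value; e = a v + b is an actual edge), so the sum of the operators is `hact D 1 = J^D`; pairs: product of the functions is 0. Vertex clauses: `vert_ver` and `fs_nprod` (all
literals negative, at most `w` of them). The variable `x_(e q + s)` of the module is `fvar e s` = `F (e q + s)`, quotient and remainder by q. `tsgb_ver`: the variable `x_e` is `fvar e 1` (q = 2); the literal `(e, decide (s = 0))` has complement `fvar e s` as functions: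
`1 - fvar e 1 = fvar e 0` (`ZMod 2`).
-/

set_option autoImplicit false
open Finset

namespace PPh

open ACpFrege

section
variable {K : Type} [Field K] {E : Type} [AddCommGroup E] [Module K E] {n v D : ℕ} {G : SimpleGraph (Fin v)}
  {U : Type} [Fintype U] [DecidableEq U] {sgn : U → Fin n → ℤ} {ic : U → Finset (Fin n)} {ch : U → ℤ} {root : U → Fin v} {loc : Fin v → U}
  {φ : Fin n → Fin v → Fin v → ℤ} {q : ℕ} {z : Fin v → Fin v → ZMod q} {c : ZMod q} {σ : Fin v → ZMod q}

private theorem VC_dm {e s q : ℕ} (h : s < q) : (e * q + s) / q = e ∧ (e * q + s) % q = s := by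
  have hq : 0 < q := lt_of_le_of_lt (Nat.zero_le _) h
  constructor
  · rw [mul_comm, Nat.mul_add_div hq, Nat.div_eq_of_lt h, add_zero]
  · rw [mul_comm, Nat.mul_add_mod, Nat.mod_eq_of_lt h]

private theorem VC_lt {e s q N : ℕ} (he : e < N) (h : s < q) : e * q + s < N * q :=
  calc e * q + s < e * q + q := Nat.add_lt_add_left h _
    _ = (e + 1) * q := by ring
    _ ≤ N * q := Nat.mul_le_mul_right q he

private theorem VC_list (F : ℕ → ℕ → Pt n → K) (N q : ℕ) : ∀ A : List (ℕ × Bool × ℕ), (∀ y ∈ A, y.1 < N ∧ y.2.2 < q) →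
    ∃ l : List (Fin (N * q) × Bool), l.length = A.length ∧ (A.map fun x => nov q x.1 x.2.2) = l.map (fun i => (i.1.1, i.2)) ∧
      (l.map fun i => if i.2 then 1 - F (i.1.1 / q) (i.1.1 % q) else F (i.1.1 / q) (i.1.1 % q)) = A.map fun y => F y.1 y.2.2 := by
  intro A
  induction A with
  | nil => intro _; exact ⟨[], rfl, rfl, rfl⟩
  | cons y A ih =>
    intro h
    obtain ⟨l, h1, h2, h3⟩ := ih fun y' hy' => h y' (List.mem_cons_of_mem _ hy')
    obtain ⟨hy1, hy2⟩ := h y List.mem_cons_self
    refine ⟨(⟨y.1 * q + y.2.2, VC_lt hy1 hy2⟩, false) :: l, ?_, ?_, ?_⟩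
    · rw [List.length_cons, List.length_cons, h1]
    · rw [List.map_cons, List.map_cons, h2]
      rfl
    · rw [List.map_cons, List.map_cons, h3]
      simp only [Bool.false_eq_true, if_false, (VC_dm hy2).1, (VC_dm hy2).2]

private theorem VC_one (hq : 2 ≤ q) (a b : Fin v) :
    ∑ s : Fin q, fvar K z c φ (n := n) (a.1 * v + b.1) ((s.1 : ℕ) : ZMod q) = 1 := by
  have hne : NeZero q := ⟨by omega⟩
  funext x
  rw [Finset.sum_apply, Pi.one_apply]
  simp only [fvar_edge]
  have hlt : (fval z c φ x a b).val < q := ZMod.val_lt _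
  rw [Finset.sum_eq_single (⟨(fval z c φ x a b).val, hlt⟩ : Fin q)]
  · rw [if_pos (ZMod.natCast_zmod_val _).symm]
  · intro s _ hs
    refine if_neg fun h => hs ?_
    apply Fin.ext
    simp only
    rw [h, ZMod.val_natCast, Nat.mod_eq_of_lt s.2]
  · intro h
    exact absurd (Finset.mem_univ _) h

private theorem VC_two (hq : 2 ≤ q) (a b : Fin v) {s s' : ℕ} (hs : s < s') (hs' : s' < q) :
    fvar K z c φ (n := n) (a.1 * v + b.1) (s : ZMod q) * fvar K z c φ (n := n) (a.1 * v + b.1) (s' : ZMod q) = 0 := by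
  have hne : NeZero q := ⟨by omega⟩
  funext x
  rw [Pi.mul_apply, Pi.zero_apply, fvar_edge, fvar_edge]
  by_cases h1 : fval z c φ x a b = (s : ZMod q)
  · have h2 : ¬ fval z c φ x a b = (s' : ZMod q) := by
      intro h2
      rw [h1] at h2
      have h3 := congrArg ZMod.val h2
      rw [ZMod.val_natCast, ZMod.val_natCast, Nat.mod_eq_of_lt (hs.trans hs'), Nat.mod_eq_of_lt hs'] at h3
      omega
    rw [if_neg h2, mul_zero]
  · rw [if_neg h1, zero_mul]

theorem tsg_ver {g : Gm K E n} (M : FlowMod g D sgn ic ch) (P : FlowMap G sgn ic root loc φ) [DecidableRel G.Adj] (hq : 2 ≤ q)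
    (hz : ∀ a b, z b a = -z a b) (hz0 : ∀ a b, ¬ G.Adj a b → z a b = 0)
    (hn : ∀ w, ∑ b, z b w = σ w - c * ∑ u, if root u = w then (ch u : ZMod q) else 0)
    (hdeg : ∀ w, einc G w ≠ []) {Δ : ℕ} (hΔ : ∀ w, (einc G w).length ≤ Δ) (h2 : 2 ≤ Δ) :
    ∀ C ∈ tsg G q σ, (g.fs D (fun e : Fin (v * v * q) => fvar K z c φ (e.1 / q) ((e.1 % q : ℕ) : ZMod q)) (fun _ => fvar_dg M P _ _)
      (fun _ => fvar_bv _ _)).Clw Δ C := by
  intro C hC
  unfold tsg at hC
  rcases List.mem_append.1 hC with hC | hC
  · obtain ⟨e, he, hC⟩ := List.mem_flatMap.1 hC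
    obtain ⟨a, b, hab, hadj, rfl⟩ := (gedg_mem G).1 he
    have hN : a.1 * v + b.1 < v * v := VC_lt a.2 b.2
    unfold exone at hC
    rcases List.mem_append.1 hC with hC | hC
    · rw [List.mem_singleton] at hC
      subst hC
      right
      refine ⟨(List.finRange q).map fun s => ⟨(a.1 * v + b.1) * q + s.1, VC_lt hN s.2⟩, ?_, ?_, ?_⟩
      · refine List.Nodup.map ?_ (List.nodup_finRange q)
        intro s s' h
        have h1 := congrArg Fin.val h
        simp only at h1
        exact Fin.ext (Nat.add_left_cancel h1)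
      · rw [List.map_map, ← List.map_coe_finRange_eq_range, List.map_map]
        rfl
      · intro m
        rw [List.map_map]
        have h1 : ((fun i => (g.fs D (fun e : Fin (v * v * q) => fvar K z c φ (e.1 / q) ((e.1 % q : ℕ) : ZMod q)) (fun _ => fvar_dg M P _ _)
            (fun _ => fvar_bv _ _)).X i m) ∘ fun s : Fin q => (⟨(a.1 * v + b.1) * q + s.1, VC_lt hN s.2⟩ : Fin (v * v * q))) =
            fun s : Fin q => g.hact D (fvar K z c φ (a.1 * v + b.1) ((s.1 : ℕ) : ZMod q)) m := by
          funext s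
          change g.hact D (fvar K z c φ (((a.1 * v + b.1) * q + s.1) / q) ((((a.1 * v + b.1) * q + s.1) % q : ℕ) : ZMod q)) m = _
          rw [(VC_dm s.2).1, (VC_dm s.2).2]
        rw [h1, ← Fin.sum_univ_def]
        have h2 := g.hact_sum D (Finset.univ : Finset (Fin q)) fun s => fvar K z c φ (a.1 * v + b.1) ((s.1 : ℕ) : ZMod q)
        rw [VC_one hq a b, g.hact_one] at h2
        have h3 := LinearMap.congr_fun h2 m
        rw [LinearMap.sum_apply] at h3
        exact h3.symm
    · left
      obtain ⟨s', hs', hC⟩ := List.mem_flatMap.1 hC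
      obtain ⟨s, hs, rfl⟩ := List.mem_map.1 hC
      rw [List.mem_range] at hs hs'
      refine ⟨[(⟨(a.1 * v + b.1) * q + s, VC_lt hN (hs.trans hs')⟩, false), (⟨(a.1 * v + b.1) * q + s', VC_lt hN hs'⟩, false)], h2, rfl, ?_⟩
      intro m
      rw [fs_nprod]
      simp only [List.map_cons, List.map_nil, Bool.false_eq_true, if_false, List.prod_cons, List.prod_nil, mul_one,
        (VC_dm hs').1, (VC_dm hs').2, (VC_dm (hs.trans hs')).1, (VC_dm (hs.trans hs')).2]
      rw [VC_two hq a b hs hs', g.hact_zero, LinearMap.zero_apply]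
  · left
    obtain ⟨w, _, hC⟩ := List.mem_flatMap.1 hC
    unfold eqc at hC
    obtain ⟨A, hA, rfl⟩ := List.mem_map.1 hC
    obtain ⟨hA1, hA2⟩ := List.mem_filter.1 hA
    rw [mem_asg] at hA1
    have hne : net q A ≠ σ w := of_decide_eq_true hA2
    obtain ⟨l, h1, h3, h4⟩ := VC_list (fun e s => fvar K z c φ (n := n) e (s : ZMod q)) (v * v) q A (by
      intro y hy
      refine ⟨?_, hA1.2 y hy⟩
      have h5 : (y.1, y.2.1) ∈ einc G w := by
        rw [← hA1.1]
        exact List.mem_map.2 ⟨y, hy, rfl⟩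
      obtain ⟨a, b, _, _, h6⟩ := (gedg_mem G).1 (einc_gedg G _ h5)
      have h7 : y.1 = a.1 * v + b.1 := h6
      rw [h7]
      exact VC_lt a.2 b.2)
    refine ⟨l, ?_, h3, ?_⟩
    · rw [h1]
      have h5 : A.length = (einc G w).length := by rw [← hA1.1, List.length_map]
      rw [h5]
      exact hΔ w
    · intro m
      rw [fs_nprod, h4, h1, vert_ver M P hz hz0 hn A hA1.1 hne (hdeg w), LinearMap.zero_apply]

end

end PPh
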